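import Pool.Agent.W659.FK.Stm

/-!
Project SA (helper659): rational points on families of subvarieties and of double covers over a split
semiabelian variety `E_1 × ⋯ × E_r × G_m^s`, coefficients in the ring of integers of a number field.
Definitions and statements of the tasks.
-/

set_option autoImplicit false

namespace Pool.Agent.W659.SA

open MvPolynomial NumberField Pool.Agent.H901R3.MS

/-- polynomials with coefficients in `O` in the homogeneous coordinates `V i j` of `r` plane cubics,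
the coordinates `u l` of a torus of dimension `s`, and `n` parameters -/
abbrev Pol (O : Type) [CommRing O] (r s n : ℕ) : Type :=
  MvPolynomial ((Fin r × Fin 3) ⊕ (Fin s ⊕ Fin n)) O

/-- homogeneous of degree `d i` in the coordinates of the `i`-th curve -/
def MHomog {O : Type} [CommRing O] {r s n : ℕ} (F : Pol O r s n) (d : Fin r → ℕ) : Prop :=
  ∀ m ∈ F.support, ∀ i, ∑ j, m (Sum.inl (i, j)) = d i

/-- the exponents of the parameters lie in `Λ` -/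
def XSupp {O : Type} [CommRing O] {r s n : ℕ} (F : Pol O r s n) (Λ : Finset (Fin n →₀ ℕ)) : Prop :=
  ∀ m ∈ F.support, ∃ e ∈ Λ, ∀ i, m (Sum.inr (Sum.inr i)) = e i

/-- the value `F(V, u; t)`; the coefficients are mapped to `k` by `φ` -/
noncomputable def vl {O k : Type} [CommRing O] [CommRing k] (φ : O →+* k) {r s n : ℕ}
    (F : Pol O r s n) (V : Fin r → Fin 3 → k) (u : Fin s → k) (t : Fin n → k) : k :=
  eval₂ φ (Sum.elim (fun ij => V ij.1 ij.2) (Sum.elim u t)) F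

/-- the polynomial `F(V, u; T_1, …, T_n)` in `n` variables over `k` -/
noncomputable def spc {O k : Type} [CommRing O] [CommRing k] (φ : O →+* k) {r s n : ℕ}
    (F : Pol O r s n) (V : Fin r → Fin 3 → k) (u : Fin s → k) : MvPolynomial (Fin n) k :=
  eval₂ (C.comp φ) (Sum.elim (fun ij => C (V ij.1 ij.2)) (Sum.elim (fun l => C (u l)) X)) F

/-- the embedding of `𝓞 K` in `ℂ` given by an embedding of `K` -/
noncomputable def toC {K : Type} [Field K] (σ : K →+* ℂ) : 𝓞 K →+* ℂ := σ.comp (algebraMap (𝓞 K) K)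

/-- the vector `(∑ j, c (i, j) ω j)_i` of elements of `𝓞 K` -/
noncomputable def vec {K : Type} [Field K] [NumberField K] {N : ℕ}
    (ω : Module.Basis (Fin N) ℤ (𝓞 K)) {n : ℕ} (c : Fin n × Fin N → ℤ) (i : Fin n) : 𝓞 K :=
  ∑ j, c (i, j) • ω j

/-! ### Statements of the tasks -/

/-- TRK: equations over `𝓞 K` solvable in fields of arbitrarily large characteristic are solvable
over `ℂ` -/
def S_TRK : Prop := ∀ (K : Type) [Field K] [NumberField K] (ι : Type) [Finite ι]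
  (I : Ideal (MvPolynomial ι (𝓞 K))),
  (∀ N : ℕ, ∃ p : ℕ, p.Prime ∧ N ≤ p ∧ ∃ (k : Type) (_ : Field k) (_ : CharP k p)
    (φ : 𝓞 K →+* k) (x : ι → k), ∀ f ∈ I, eval₂ φ x f = 0) →
  ∀ σ : K →+* ℂ, ∃ x : ι → ℂ, ∀ f ∈ I, eval₂ (toC σ) x f = 0

/-- ULTS: transfer of the hypothesis `F(P; T)` is not a square -/
def S_ULTS : Prop := ∀ (K : Type) [Field K] [NumberField K] (r s n : ℕ) (a b : Fin r → ℤ)
  (F : Pol (𝓞 K) r s n) (σ : K →+* ℂ),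
  (∀ (V : Fin r → Fin 3 → ℂ) (u : Fin s → ℂ), (∀ i, FD.OnE (a i) (b i) (V i)) → (∀ l, u l ≠ 0) →
    ∀ g : MvPolynomial (Fin n) ℂ, spc (toC σ) F V u ≠ g ^ 2) →
  ∃ p₁ : ℕ, ∀ p : ℕ, p.Prime → p₁ ≤ p → ∀ (k : Type) [Field k] [CharP k p] (φ : 𝓞 K →+* k)
    (V : Fin r → Fin 3 → k) (u : Fin s → k), (∀ i, FD.OnE (a i) (b i) (V i)) → (∀ l, u l ≠ 0) →
      ∀ (c : k) (g : MvPolynomial (Fin n) k), spc φ F V u ≠ C c * g ^ 2

/-- TRZ: transfer of the hypothesis that the `G j (P; T)` are not all zero -/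
def S_TRZ : Prop := ∀ (K : Type) [Field K] [NumberField K] (r s n : ℕ) (a b : Fin r → ℤ)
  (J : Type) [Finite J] (G : J → Pol (𝓞 K) r s n) (σ : K →+* ℂ),
  (∀ (V : Fin r → Fin 3 → ℂ) (u : Fin s → ℂ), (∀ i, FD.OnE (a i) (b i) (V i)) → (∀ l, u l ≠ 0) →
    ∃ j, spc (toC σ) (G j) V u ≠ 0) →
  ∃ p₁ : ℕ, ∀ p : ℕ, p.Prime → p₁ ≤ p → ∀ (k : Type) [Field k] [CharP k p] (φ : 𝓞 K →+* k)
    (V : Fin r → Fin 3 → k) (u : Fin s → k), (∀ i, FD.OnE (a i) (b i) (V i)) → (∀ l, u l ≠ 0) →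
      ∃ j, spc φ (G j) V u ≠ 0

/-- among `D + 1` nonzero common zeros of the `G j (V, u; x)` two are proportional: the fibre has at
most `D` points in projective space -/
def AtMost {O k : Type} [CommRing O] [Field k] (φ : O →+* k) {r s n : ℕ} {J : Type}
    (G : J → Pol O r s n) (V : Fin r → Fin 3 → k) (u : Fin s → k) (D : ℕ) : Prop :=
  ∀ x : Fin (D + 1) → Fin n → k, (∀ l, x l ≠ 0) → (∀ l j, vl φ (G j) V u (x l) = 0) →
    ∃ l l' : Fin (D + 1), l ≠ l' ∧ ∃ c : k, x l = c • x l'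

/-- TRF: transfer of the hypothesis that all the fibres have at most `D` points -/
def S_TRF : Prop := ∀ (K : Type) [Field K] [NumberField K] (r s n : ℕ) (a b : Fin r → ℤ)
  (J : Type) [Finite J] (G : J → Pol (𝓞 K) r s n) (σ : K →+* ℂ) (D : ℕ),
  (∀ (V : Fin r → Fin 3 → ℂ) (u : Fin s → ℂ), (∀ i, FD.OnE (a i) (b i) (V i)) → (∀ l, u l ≠ 0) →
    AtMost (toC σ) G V u D) →
  ∃ p₁ : ℕ, ∀ p : ℕ, p.Prime → p₁ ≤ p → ∀ (k : Type) [Field k] [CharP k p] (φ : 𝓞 K →+* k)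
    (V : Fin r → Fin 3 → k) (u : Fin s → k), (∀ i, FD.OnE (a i) (b i) (V i)) → (∀ l, u l ≠ 0) →
      AtMost φ G V u D

/-- DET: integral points in a box which satisfy an equation with exponents in `Λ` modulo places
above many primes lie on one hypersurface -/
def S_DET : Prop := ∀ (K : Type) [Field K] [NumberField K] (N : ℕ)
  (ω : Module.Basis (Fin N) ℤ (𝓞 K)) (n : ℕ) (Λ : Finset (Fin n →₀ ℕ)),
  ∃ C₀ : ℕ, 1 ≤ C₀ ∧ ∀ (H : ℕ) (T : Finset ℕ), (∀ p ∈ T, p.Prime) →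
    (C₀ * (H + 1)) ^ C₀ < ∏ p ∈ T, p → ∀ S : Set (Fin n × Fin N → ℤ),
    (∀ c ∈ S, ∀ i, |c i| ≤ H) →
    (∀ p ∈ T, ∃ (k : Type) (_ : Field k) (_ : CharP k p) (φ : 𝓞 K →+* k)
      (g : MvPolynomial (Fin n) k), g ≠ 0 ∧ g.support ⊆ Λ ∧
        ∀ c ∈ S, eval (fun i => φ (vec ω c i)) g = 0) →
    ∃ Γ : MvPolynomial (Fin n) K, Γ ≠ 0 ∧ Γ.support ⊆ Λ ∧
      ∀ c ∈ S, eval (fun i => ((vec ω c i : 𝓞 K) : K)) Γ = 0

/-- DETF: integral vectors in a box which have at most `D` directions modulo places above many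
primes have at most `D` directions -/
def S_DETF : Prop := ∀ (K : Type) [Field K] [NumberField K] (N : ℕ)
  (ω : Module.Basis (Fin N) ℤ (𝓞 K)) (n D : ℕ),
  ∃ C₀ : ℕ, 1 ≤ C₀ ∧ ∀ (H : ℕ) (T : Finset ℕ), (∀ p ∈ T, p.Prime) →
    (C₀ * (H + 1)) ^ C₀ < ∏ p ∈ T, p → ∀ c : Fin (D + 1) → Fin n × Fin N → ℤ,
    (∀ l i, |c l i| ≤ H) → (∀ l, ∃ i, vec ω (c l) i ≠ 0) →
    (∀ p ∈ T, ∃ (k : Type) (_ : Field k) (_ : CharP k p) (φ : 𝓞 K →+* k),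
      (∃ l, ∀ i, φ (vec ω (c l) i) = 0) ∨
      ∃ l l' : Fin (D + 1), l ≠ l' ∧ ∃ z : k, ∀ i, φ (vec ω (c l) i) = z * φ (vec ω (c l') i)) →
    ∃ l l' : Fin (D + 1), l ≠ l' ∧ ∃ z : K, ∀ i, ((vec ω (c l) i : 𝓞 K) : K) =
      z * ((vec ω (c l') i : 𝓞 K) : K)

/-- UR: the elements of a finitely generated subgroup of `Kˣ` are units at almost all places -/
def S_UR : Prop := ∀ (K : Type) [Field K] [NumberField K] (Γ : Subgroup Kˣ), Γ.FG →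
  ∃ p₁ : ℕ, ∀ p : ℕ, p.Prime → p₁ ≤ p → ∀ (k : Type) [Field k] [CharP k p] (v : Place K k),
    (∀ x : 𝓞 K, (x : K) ∈ v.A) → ∀ g ∈ Γ, (g : K) ∈ v.A ∧ v.r (g : K) ≠ 0

open Classical in
/-- the primes `p ≤ y` such that `p - 1` has a prime factor larger than `y ^ τ` -/
noncomputable def RoughM (τ : ℝ) (y : ℕ) : Finset ℕ :=
  (Finset.Icc 1 y).filter (fun p : ℕ => p.Prime ∧
    ∃ q : ℕ, q.Prime ∧ q ∣ p - 1 ∧ ⌊(y : ℝ) ^ τ⌋₊ < q)

/-- ROM: few primes `p` with `p - 1` having a very large prime factor (port of `RO`) -/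
def S_ROM : Prop := ∃ C : ℝ, 0 < C ∧ ∀ η : ℝ, 0 < η → η ≤ 1 / 4 → ∃ Y : ℕ, ∀ y : ℕ, Y ≤ y →
  ((RoughM (1 - η) y).card : ℝ) ≤ C * η * (y / Real.log y)

/-- SP2: a positive proportion of the degree one primes `p` have both `p + 1` and `p - 1` smooth -/
def S_SP2 : Prop := ∀ (K : Type) [Field K] [NumberField K] (A B : Prop),
  (A → ¬ ∃ x : K, x ^ 2 = -1) → (B → ¬ ∃ x : K, x ^ 2 = -3) →
    ∃ τ : ℝ, 0 < τ ∧ τ < 1 ∧ ∃ κ : ℝ, 0 < κ ∧ ∃ Y : ℕ, ∀ y : ℕ, Y ≤ y →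
      κ * (y / Real.log y) ≤ (((DegP K A B y \ RoughP τ y) \ RoughM τ y).card : ℝ)

/-- PRL: the product of many primes -/
def S_PRL : Prop := ∀ κ : ℝ, 0 < κ → ∃ Y : ℕ, ∀ y : ℕ, Y ≤ y → ∀ T : Finset ℕ,
  (∀ p ∈ T, 2 ≤ p ∧ p ≤ y) → κ * (y / Real.log y) ≤ (T.card : ℝ) →
    Real.exp (κ * y / 8) ≤ ∏ p ∈ T, (p : ℝ)

/-- CH: the choice of `y` -/
def S_CH : Prop := ∀ (C₀ Y : ℕ) (κ : ℝ), 0 < κ → ∃ C₂ : ℝ, 0 < C₂ ∧ ∃ H₀ : ℕ, 3 ≤ H₀ ∧
  ∀ H : ℕ, H₀ ≤ H → Y ≤ ⌊C₂ * Real.log H⌋₊ ∧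
    ((C₀ : ℝ) * (H + 1)) ^ C₀ < Real.exp (κ * (⌊C₂ * Real.log H⌋₊ : ℝ) / 8)

/-- ASH: the number of the classes -/
def S_ASH : Prop := ∀ (R : ℕ) (C₂ τ : ℝ), 0 < C₂ → 0 < τ → τ < 1 → ∃ H₀ : ℕ, 3 ≤ H₀ ∧
  ∀ H : ℕ, H₀ ≤ H → ∀ y : ℕ, (y : ℝ) ≤ C₂ * Real.log H →
    (2 * ((y : ℝ) + 1) ^ (2 * ⌊(y : ℝ) ^ τ⌋₊)) ^ R ≤ Real.exp ((Real.log H) ^ ((1 + τ) / 2))

/-- SZ: the number of the points of a hypersurface in a box -/
def S_SZ : Prop := ∀ (K : Type) [Field K] [NumberField K] (N : ℕ)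
  (ω : Module.Basis (Fin N) ℤ (𝓞 K)) (n : ℕ) (Γ : MvPolynomial (Fin (n + 1)) K), Γ ≠ 0 →
    ∀ H : ℕ, ({c : Fin (n + 1) × Fin N → ℤ | (∀ i, |c i| ≤ H) ∧
      eval (fun i => ((vec ω c i : 𝓞 K) : K)) Γ = 0}.ncard) ≤
        Γ.totalDegree * (2 * H + 1) ^ (N * n)

end Pool.Agent.W659.SA
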