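import Pool.Agent.W659.SA.Final
import Pool.Agent.H39R3.Tor.SUnit

/-! Project SA (helper659): parameters multiplied by units. -/

set_option autoImplicit false

namespace Pool.Agent.W659.SA

open MvPolynomial NumberField Pool.Agent.H901R3.MS

/-- the exponent after the substitution `t_k ↦ z_k t_k` -/
noncomputable def shiftE {r s n : ℕ} (m : (Fin r × Fin 3) ⊕ (Fin s ⊕ Fin n) →₀ ℕ) :
    (Fin r × Fin 3) ⊕ (Fin (s + n) ⊕ Fin n) →₀ ℕ :=
  Finsupp.equivFunOnFinite.symm (Sum.elim (fun ij => m (Sum.inl ij))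
    (Sum.elim (Fin.append (fun l => m (Sum.inr (Sum.inl l))) (fun k => m (Sum.inr (Sum.inr k))))
      (fun k => m (Sum.inr (Sum.inr k)))))

/-- the polynomial `F(V, u; z_1 t_1, …, z_n t_n)` -/
noncomputable def scaleT {O : Type} [CommRing O] {r s n : ℕ} (F : Pol O r s n) :
    Pol O r (s + n) n := ∑ m ∈ F.support, monomial (shiftE m) (coeff m F)

theorem scaleT_homog {O : Type} [CommRing O] {r s n : ℕ} (F : Pol O r s n) (d : Fin r → ℕ)
    (hF : MHomog F d) : MHomog (scaleT F) d := by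
  classical
  intro e he i
  unfold scaleT at he
  have h1 := support_sum he
  rw [Finset.mem_biUnion] at h1
  obtain ⟨m, hm, hem⟩ := h1
  have h2 := support_monomial_subset hem
  rw [Finset.mem_singleton] at h2
  rw [h2, ← hF m hm i]
  rfl

theorem vl_scaleT {O A : Type} [CommRing O] [CommRing A] (φ : O →+* A) {r s n : ℕ}
    (F : Pol O r s n) (V : Fin r → Fin 3 → A) (u : Fin s → A) (z : Fin n → A) (t : Fin n → A) :
    vl φ (scaleT F) V (Fin.append u z) t = vl φ F V u (fun k => z k * t k) := by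
  rw [vl_expand φ F V u]
  unfold scaleT vl
  rw [eval₂_sum]
  refine Finset.sum_congr rfl fun m _ => ?_
  rw [eval₂_monomial, Finsupp.prod_fintype _ _ (fun _ => pow_zero _)]
  congr 1
  rw [Fintype.prod_sum_type, Fintype.prod_prod_type, Fintype.prod_sum_type, Fin.prod_univ_add]
  simp only [shiftE, Finsupp.equivFunOnFinite_symm_apply_apply, Sum.elim_inl, Sum.elim_inr,
    Fin.append_left, Fin.append_right, mul_pow, Finset.prod_mul_distrib]
  ring

theorem spc_scaleT {O A : Type} [CommRing O] [CommRing A] (φ : O →+* A) {r s n : ℕ}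
    (F : Pol O r s n) (V : Fin r → Fin 3 → A) (u : Fin s → A) (z : Fin n → A) :
    spc φ (scaleT F) V (Fin.append u z) =
      aeval (fun k => (C (z k) * X k : MvPolynomial (Fin n) A)) (spc φ F V u) := by
  have h1 : spc φ (scaleT F) V (Fin.append u z) = vl (C.comp φ) (scaleT F)
      (fun i j => (C (V i j) : MvPolynomial (Fin n) A))
      (Fin.append (fun l => C (u l)) (fun k => C (z k))) X := by
    unfold spc vl
    congr 1
    funext x
    rcases x with ij | l | k
    · rfl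
    · simp only [Sum.elim_inr, Sum.elim_inl]
      refine Fin.addCases (fun l => ?_) (fun k => ?_) l
      · rw [Fin.append_left, Fin.append_left]
      · rw [Fin.append_right, Fin.append_right]
    · rfl
  rw [h1, vl_scaleT]
  have h2 : spc φ F V u = vl (C.comp φ) F (fun i j => (C (V i j) : MvPolynomial (Fin n) A))
      (fun l => C (u l)) X := rfl
  have h3 := vl_map (C.comp φ) ((aeval (fun k => (C (z k) * X k : MvPolynomial (Fin n) A)) :
    MvPolynomial (Fin n) A →ₐ[A] MvPolynomial (Fin n) A).toRingHom) F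
    (fun i j => (C (V i j) : MvPolynomial (Fin n) A)) (fun l => C (u l)) X
  rw [h2]
  refine Eq.trans ?_ h3.symm
  congr 1
  · ext x
    simp [algebraMap_eq]
  · funext i j
    simp [algebraMap_eq]
  · funext l
    simp [algebraMap_eq]
  · funext k
    simp

theorem spc_scaleT_ne {O : Type} [CommRing O] (φ : O →+* ℂ) {r s n : ℕ}
    (F : Pol O r s n) (V : Fin r → Fin 3 → ℂ) (u : Fin s → ℂ) (z : Fin n → ℂ)
    (hz : ∀ k, z k ≠ 0) (h : ∀ g : MvPolynomial (Fin n) ℂ, spc φ F V u ≠ g ^ 2)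
    (g : MvPolynomial (Fin n) ℂ) : spc φ (scaleT F) V (Fin.append u z) ≠ g ^ 2 := by
  intro hg
  rw [spc_scaleT] at hg
  apply h (aeval (fun k => (C (z k)⁻¹ * X k : MvPolynomial (Fin n) ℂ)) g)
  rw [← map_pow, ← hg]
  have h1 : (aeval (fun k => (C (z k)⁻¹ * X k : MvPolynomial (Fin n) ℂ)) :
      MvPolynomial (Fin n) ℂ →ₐ[ℂ] MvPolynomial (Fin n) ℂ).comp
      (aeval (fun k => (C (z k) * X k : MvPolynomial (Fin n) ℂ))) = AlgHom.id ℂ _ := by
    apply MvPolynomial.algHom_ext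
    intro k
    simp only [AlgHom.comp_apply, aeval_X, map_mul, AlgHom.id_apply]
    rw [← algebraMap_eq, AlgHom.commutes, algebraMap_eq, ← mul_assoc, ← C_mul,
      mul_inv_cancel₀ (hz k), C_1, one_mul]
  exact (congrArg (fun f => f (spc φ F V u)) h1).symm

/-- the coefficient vectors of the `m ∈ (𝓞 K)ⁿ` in a box such that there is a point of the double
cover `w² = F(P, u; t)` with `P ∈ A(K)`, torus coordinates in `Γ` and `t = (z_1 m_1, …, z_n m_n)`,
`z_k ∈ Γ` -/
def FibZ {K : Type} [Field K] [NumberField K] {N : ℕ} (ω : Module.Basis (Fin N) ℤ (𝓞 K))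
    {r s n : ℕ} (a b : Fin r → ℤ) (Γ : Subgroup Kˣ) (F : Pol (𝓞 K) r s n) (H : ℕ) :
    Set (Fin n × Fin N → ℤ) :=
  {c | (∀ i, |c i| ≤ H) ∧ ∃ (V : Fin r → Fin 3 → K) (u : Fin s → Kˣ) (z : Fin n → Kˣ) (w : K),
    (∀ i, FD.OnE (a i) (b i) (V i)) ∧ (∀ l, u l ∈ Γ) ∧ (∀ k, z k ∈ Γ) ∧
      w ^ 2 = vl (algebraMap (𝓞 K) K) F V (fun l => ((u l : Kˣ) : K))
        (fun k => ((z k : Kˣ) : K) * ((vec ω c k : 𝓞 K) : K))}

theorem fibZ_eq {K : Type} [Field K] [NumberField K] {N : ℕ} (ω : Module.Basis (Fin N) ℤ (𝓞 K))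
    {r s n : ℕ} (a b : Fin r → ℤ) (Γ : Subgroup Kˣ) (F : Pol (𝓞 K) r s n) (H : ℕ) :
    FibZ ω a b Γ F H = FibS ω a b Γ (scaleT F) H := by
  ext c
  unfold FibZ FibS
  constructor
  · rintro ⟨h1, V, u, z, w, hV, hu, hz, hw⟩
    refine ⟨h1, V, Fin.append u z, w, hV, fun l => ?_, ?_⟩
    · refine Fin.addCases (fun l => ?_) (fun k => ?_) l
      · rw [Fin.append_left]
        exact hu l
      · rw [Fin.append_right]
        exact hz k
    · rw [hw, ← vl_scaleT]
      congr 1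
      funext l
      refine Fin.addCases (fun l => ?_) (fun k => ?_) l
      · rw [Fin.append_left, Fin.append_left]
      · rw [Fin.append_right, Fin.append_right]
  · rintro ⟨h1, V, u, w, hV, hu, hw⟩
    refine ⟨h1, V, fun l => u (Fin.castAdd n l), fun k => u (Fin.natAdd s k), w, hV,
      fun l => hu _, fun k => hu _, ?_⟩
    rw [hw, ← vl_scaleT]
    congr 1
    funext l
    refine Fin.addCases (fun l => ?_) (fun k => ?_) l
    · rw [Fin.append_left]
    · rw [Fin.append_right]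

theorem dcZ (K : Type) [Field K] [NumberField K] (N : ℕ) (ω : Module.Basis (Fin N) ℤ (𝓞 K))
    (r s n : ℕ) (hn : 1 ≤ n) (a b : Fin r → ℤ) (hab : ∀ i, a i * b i = 0 ∧ (a i ≠ 0 ∨ b i ≠ 0))
    (Γ : Subgroup Kˣ) (hΓ : Γ.FG) (F : Pol (𝓞 K) r s n) (d : Fin r → ℕ) (hd : ∀ i, Even (d i))
    (hF : MHomog F d) (σ : K →+* ℂ)
    (hns : ∀ (V : Fin r → Fin 3 → ℂ) (u : Fin s → ℂ), (∀ i, FD.OnE (a i) (b i) (V i)) →
      (∀ l, u l ≠ 0) → ∀ g : MvPolynomial (Fin n) ℂ, spc (toC σ) F V u ≠ g ^ 2) :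
    ∃ c : ℝ, 0 < c ∧ ∃ H₀ : ℕ, ∀ H : ℕ, H₀ ≤ H →
    (((FibZ ω a b Γ F H).ncard : ℕ) : ℝ) ≤
      (2 * (H : ℝ) + 1) ^ (n * N) * Real.exp (-c * (Real.log H / Real.log (Real.log H))) := by
  have h := dc K N ω r (s + n) n hn a b hab Γ hΓ (scaleT F) d hd (scaleT_homog F d hF) σ (by
    intro V u hV hu g
    have h1 : u = Fin.append (fun l => u (Fin.castAdd n l)) (fun k => u (Fin.natAdd s k)) := by
      funext l
      refine Fin.addCases (fun l => ?_) (fun k => ?_) l
      · rw [Fin.append_left]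
      · rw [Fin.append_right]
    rw [h1]
    exact spc_scaleT_ne (toC σ) F V _ _ (fun k => hu _)
      (hns V _ hV (fun l => hu _)) g)
  simpa only [fibZ_eq] using h

end Pool.Agent.W659.SA
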