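import Pool.Agent.W347.SA.ULTS

/-! Project SA (helper659): transfer for several polynomials (adapted from helper347). -/

set_option autoImplicit false

namespace Pool.Agent.W659.SA.ULTM

open MvPolynomial NumberField Pool.Agent.W659 Pool.Agent.W659.SA Pool.Agent.W346.FD
open Pool.Agent.W347.SA.ULTS (gs map_gs spc_eq deg_bound)

/-- ULTM: transfer of the hypothesis that the polynomials `F i (P; T)` are not all squares -/
def S_ULTM : Prop := ∀ (K : Type) [Field K] [NumberField K] (r s n m : ℕ) (a b : Fin r → ℤ)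
  (F : Fin m → Pol (𝓞 K) r s n) (σ : K →+* ℂ),
  (∀ (V : Fin r → Fin 3 → ℂ) (u : Fin s → ℂ), (∀ i, FD.OnE (a i) (b i) (V i)) → (∀ l, u l ≠ 0) →
    ∃ e, ∀ g : MvPolynomial (Fin n) ℂ, spc (toC σ) (F e) V u ≠ g ^ 2) →
  ∃ p₁ : ℕ, ∀ p : ℕ, p.Prime → p₁ ≤ p → ∀ (k : Type) [Field k] [CharP k p] (φ : 𝓞 K →+* k)
    (V : Fin r → Fin 3 → k) (u : Fin s → k), (∀ i, FD.OnE (a i) (b i) (V i)) → (∀ l, u l ≠ 0) →
      ∃ e, ∀ (c : k) (g : MvPolynomial (Fin n) k), spc φ (F e) V u ≠ C c * g ^ 2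

/-- the variables of the system -/
abbrev Vars (r s n D m : ℕ) : Type :=
  ((Fin r × Fin 3) ⊕ (Fin r × Fin 3)) ⊕
    ((Fin s ⊕ Fin s) ⊕ (Fin m ⊕ Fin m × {α : Fin n →₀ ℕ // α ∈ expo n D}))

/-- the equations -/
noncomputable def eqs {O : Type} [CommRing O] {r s n m : ℕ} (D : ℕ) (a b : Fin r → ℤ)
    (F : Fin m → Pol O r s n) : Set (MvPolynomial (Vars r s n D m) O) :=
  (Set.range fun i : Fin r => X (Sum.inl (Sum.inl (i, 1))) ^ 2 * X (Sum.inl (Sum.inl (i, 2))) -
      (X (Sum.inl (Sum.inl (i, 0))) ^ 3 + ((a i : ℤ) : MvPolynomial (Vars r s n D m) O) *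
        X (Sum.inl (Sum.inl (i, 0))) * X (Sum.inl (Sum.inl (i, 2))) ^ 2 +
        ((b i : ℤ) : MvPolynomial (Vars r s n D m) O) * X (Sum.inl (Sum.inl (i, 2))) ^ 3)) ∪
  (Set.range fun i : Fin r => (∑ j : Fin 3, X (Sum.inl (Sum.inl (i, j))) *
      X (Sum.inl (Sum.inr (i, j)))) - 1) ∪
  (Set.range fun l : Fin s => X (Sum.inr (Sum.inl (Sum.inl l))) *
      X (Sum.inr (Sum.inl (Sum.inr l))) - 1) ∪
  (Set.range fun β : Fin m × (Fin n →₀ ℕ) =>
    (gs (C : O →+* MvPolynomial (Vars r s n D m) O) (F β.1) (fun ij => X (Sum.inl (Sum.inl ij)))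
      (fun l => X (Sum.inr (Sum.inl (Sum.inl l)))) -
      C (X (Sum.inr (Sum.inr (Sum.inl β.1)))) *
        gg n D (fun α => (X (Sum.inr (Sum.inr (Sum.inr (β.1, α)))) :
          MvPolynomial (Vars r s n D m) O)) ^ 2).coeff β.2)

lemma sys_iff {O k : Type} [CommRing O] [CommRing k] (φ : O →+* k) {r s n m : ℕ} (D : ℕ)
    (a b : Fin r → ℤ) (F : Fin m → Pol O r s n) (x : Vars r s n D m → k) :
    (∀ f ∈ Ideal.span (eqs D a b F), eval₂ φ x f = 0) ↔
      ((∀ i, x (Sum.inl (Sum.inl (i, 1))) ^ 2 * x (Sum.inl (Sum.inl (i, 2))) =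
        x (Sum.inl (Sum.inl (i, 0))) ^ 3 + (a i : k) * x (Sum.inl (Sum.inl (i, 0))) *
        x (Sum.inl (Sum.inl (i, 2))) ^ 2 + (b i : k) * x (Sum.inl (Sum.inl (i, 2))) ^ 3) ∧
      (∀ i, ∑ j : Fin 3, x (Sum.inl (Sum.inl (i, j))) * x (Sum.inl (Sum.inr (i, j))) = 1) ∧
      (∀ l, x (Sum.inr (Sum.inl (Sum.inl l))) * x (Sum.inr (Sum.inl (Sum.inr l))) = 1) ∧
      ∀ e, gs φ (F e) (fun ij => x (Sum.inl (Sum.inl ij)))
        (fun l => x (Sum.inr (Sum.inl (Sum.inl l)))) =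
        C (x (Sum.inr (Sum.inr (Sum.inl e)))) *
        gg n D (fun α => x (Sum.inr (Sum.inr (Sum.inr (e, α))))) ^ 2) := by
  have h0 : ∀ f : MvPolynomial (Vars r s n D m) O, eval₂ φ x f = eval₂Hom φ x f := fun f => rfl
  have h1 : (∀ f ∈ Ideal.span (eqs D a b F), eval₂ φ x f = 0) ↔ ∀ f ∈ eqs D a b F,
      eval₂Hom φ x f = 0 := by
    constructor
    · intro h f hf
      exact h f (Ideal.subset_span hf)
    · intro h f hf
      have h2 : Ideal.span (eqs D a b F) ≤ RingHom.ker (eval₂Hom φ x) :=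
        Ideal.span_le.2 fun g hg => h g hg
      exact h2 hf
  rw [h1]
  have h3 : ∀ (g : MvPolynomial (Fin n) (MvPolynomial (Vars r s n D m) O)),
      (∀ β, eval₂Hom φ x (g.coeff β) = 0) ↔ MvPolynomial.map (eval₂Hom φ x) g = 0 := by
    intro g
    constructor
    · intro h
      ext β
      rw [coeff_map, coeff_zero]
      exact h β
    · intro h β
      have := congrArg (fun q => coeff β q) h
      simp only [coeff_map, coeff_zero] at this
      exact this
  have hC : (eval₂Hom φ x).comp (C : O →+* MvPolynomial (Vars r s n D m) O) = φ := by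
    ext z
    simp
  have h4 : ∀ e, MvPolynomial.map (eval₂Hom φ x)
      (gs (C : O →+* MvPolynomial (Vars r s n D m) O) (F e) (fun ij => X (Sum.inl (Sum.inl ij)))
      (fun l => X (Sum.inr (Sum.inl (Sum.inl l)))) -
      C (X (Sum.inr (Sum.inr (Sum.inl e)))) *
        gg n D (fun α => (X (Sum.inr (Sum.inr (Sum.inr (e, α)))) :
          MvPolynomial (Vars r s n D m) O)) ^ 2) =
      gs φ (F e) (fun ij => x (Sum.inl (Sum.inl ij)))
        (fun l => x (Sum.inr (Sum.inl (Sum.inl l)))) -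
        C (x (Sum.inr (Sum.inr (Sum.inl e)))) *
        gg n D (fun α => x (Sum.inr (Sum.inr (Sum.inr (e, α))))) ^ 2 := by
    intro e
    rw [map_sub, map_mul, map_pow, map_gs, map_gg, map_C, hC]
    simp only [coe_eval₂Hom, eval₂_X]
  unfold eqs
  constructor
  · intro h
    refine ⟨fun i => ?_, fun i => ?_, fun l => ?_, fun e => ?_⟩
    · have h5 := h _ (Or.inl (Or.inl (Or.inl ⟨i, rfl⟩)))
      simp only [map_sub, map_mul, map_pow, map_add, eval₂Hom_X', map_intCast] at h5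
      exact sub_eq_zero.1 h5
    · have h5 := h _ (Or.inl (Or.inl (Or.inr ⟨i, rfl⟩)))
      simp only [map_sub, map_mul, map_sum, eval₂Hom_X', map_one] at h5
      exact sub_eq_zero.1 h5
    · have h5 := h _ (Or.inl (Or.inr ⟨l, rfl⟩))
      simp only [map_sub, map_mul, eval₂Hom_X', map_one] at h5
      exact sub_eq_zero.1 h5
    · have h5 := (h3 (gs (C : O →+* MvPolynomial (Vars r s n D m) O) (F e)
        (fun ij => X (Sum.inl (Sum.inl ij))) (fun l => X (Sum.inr (Sum.inl (Sum.inl l)))) -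
        C (X (Sum.inr (Sum.inr (Sum.inl e)))) *
          gg n D (fun α => (X (Sum.inr (Sum.inr (Sum.inr (e, α)))) :
            MvPolynomial (Vars r s n D m) O)) ^ 2)).1 fun β => h _ (Or.inr ⟨(e, β), rfl⟩)
      rw [h4] at h5
      exact sub_eq_zero.1 h5
  · rintro ⟨h5, h6, h8, h7⟩ f hf
    rcases hf with ((⟨i, rfl⟩ | ⟨i, rfl⟩) | ⟨l, rfl⟩) | ⟨β, rfl⟩
    · simp only [map_sub, map_mul, map_pow, map_add, eval₂Hom_X', map_intCast]
      exact sub_eq_zero.2 (h5 i)
    · simp only [map_sub, map_mul, map_sum, eval₂Hom_X', map_one]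
      exact sub_eq_zero.2 (h6 i)
    · simp only [map_sub, map_mul, eval₂Hom_X', map_one]
      exact sub_eq_zero.2 (h8 l)
    · refine (h3 _).2 ?_ β.2
      rw [h4]
      exact sub_eq_zero.2 (h7 β.1)

theorem main : S_TRK → S_ULTM := by
  intro hTR K _ _ r s n m a b F σ hF
  by_contra hcon
  push Not at hcon
  have hDD : ∀ e : Fin m, ∃ D : ℕ, ∀ (k : Type) [Field k] (φ : 𝓞 K →+* k) (V : Fin r × Fin 3 → k)
      (u : Fin s → k), (gs φ (F e) V u).totalDegree ≤ D := fun e => deg_bound (F e)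
  choose D' hD' using hDD
  set D : ℕ := ∑ e, D' e with hDdef
  have hD : ∀ (e : Fin m) (k : Type) [Field k] (φ : 𝓞 K →+* k) (V : Fin r × Fin 3 → k)
      (u : Fin s → k), (gs φ (F e) V u).totalDegree ≤ D := fun e k _ φ V u =>
    (hD' e k φ V u).trans (Finset.single_le_sum (f := D') (fun _ _ => Nat.zero_le _)
      (Finset.mem_univ e))
  obtain ⟨x, hx⟩ := hTR K (Vars r s n D m) (Ideal.span (eqs D a b F)) (by
    intro N
    obtain ⟨p, hp, hNp, k, hk, hc, φ, V, u, hV, hu, hcg⟩ := hcon N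
    refine ⟨p, hp, hNp, k, hk, hc, φ, ?_⟩
    choose c g hcg using hcg
    -- a good g
    have hg2 : ∀ e, ∃ g' : MvPolynomial (Fin n) k,
        spc φ (F e) V u = C (c e) * g' ^ 2 ∧ g'.totalDegree ≤ D := by
      intro e
      by_cases h1 : c e = 0 ∨ g e = 0
      · refine ⟨0, ?_, by simp⟩
        rw [hcg]
        rcases h1 with h1 | h1 <;> simp [h1]
      · push Not at h1
        refine ⟨g e, hcg e, ?_⟩
        have h2 := hD e k φ (fun ij => V ij.1 ij.2) u
        rw [← spc_eq, hcg, pow_two, totalDegree_mul_of_isDomain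
          (by rw [Ne, C_eq_zero]; exact h1.1) (mul_ne_zero h1.2 h1.2),
          totalDegree_mul_of_isDomain h1.2 h1.2] at h2
        omega
    choose g' hg' hg'D using hg2
    -- inverses
    have hW : ∀ i, ∃ W : Fin 3 → k, ∑ j, V i j * W j = 1 := by
      intro i
      obtain ⟨j, hj⟩ := Function.ne_iff.1 (hV i).1
      refine ⟨Pi.single j (V i j)⁻¹, ?_⟩
      rw [Finset.sum_eq_single j]
      · rw [Pi.single_eq_same]
        exact mul_inv_cancel₀ hj
      · intro k _ hk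
        rw [Pi.single_eq_of_ne hk, mul_zero]
      · intro h
        exact absurd (Finset.mem_univ j) h
    choose W hW using hW
    refine ⟨Sum.elim (Sum.elim (fun ij => V ij.1 ij.2) (fun ij => W ij.1 ij.2))
      (Sum.elim (Sum.elim u (fun l => (u l)⁻¹))
        (Sum.elim c (fun eα => (g' eα.1).coeff eα.2.1))), ?_⟩
    rw [sys_iff]
    refine ⟨fun i => ?_, fun i => ?_, fun l => ?_, fun e => ?_⟩
    · exact (hV i).2
    · exact hW i
    · exact mul_inv_cancel₀ (hu l)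
    · simp only [Sum.elim_inl, Sum.elim_inr]
      rw [gg_coeff n D (g' e) (hg'D e)]
      exact hg' e) σ
  rw [sys_iff] at hx
  obtain ⟨h1, h2, h4, h3⟩ := hx
  obtain ⟨e, he⟩ := hF (fun i j => x (Sum.inl (Sum.inl (i, j))))
    (fun l => x (Sum.inr (Sum.inl (Sum.inl l))))
    (fun i => ⟨by
      intro h0
      have h4 := h2 i
      have h5 : ∀ j, x (Sum.inl (Sum.inl (i, j))) = 0 := fun j => congrFun h0 j
      simp [h5] at h4, h1 i⟩) (fun l => left_ne_zero_of_mul_eq_one (h4 l))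
  obtain ⟨z, hz⟩ := IsAlgClosed.exists_pow_nat_eq (x (Sum.inr (Sum.inr (Sum.inl e)))) (n := 2)
    (by norm_num)
  refine he (C z * gg n D (fun α => x (Sum.inr (Sum.inr (Sum.inr (e, α)))))) ?_
  rw [mul_pow, ← C_pow, hz]
  exact h3 e

end Pool.Agent.W659.SA.ULTM
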