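import Pool.Agent.W659.SA.DC
import Pool.Agent.W659.SA.Scale
import Pool.Agent.W659.SA.ULTM

/-! Project SA (helper659): covers `w_e² = F_e(P, u; t)`, `e = 1, …, m`, of `G × 𝔸ⁿ`. -/

set_option autoImplicit false

namespace Pool.Agent.W659.SA

open MvPolynomial NumberField Pool.Agent.H901R3.MS WeierstrassCurve

/-- the coefficient vectors of the `t ∈ (𝓞 K)ⁿ` in a box over which there is a point of the cover
`w_e² = F_e(P, u; t)`, `e = 1, …, m` -/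
def FibMS {K : Type} [Field K] [NumberField K] {N : ℕ} (ω : Module.Basis (Fin N) ℤ (𝓞 K))
    {r s n m : ℕ} (a b : Fin r → ℤ) (Γ : Subgroup Kˣ) (F : Fin m → Pol (𝓞 K) r s n) (H : ℕ) :
    Set (Fin n × Fin N → ℤ) :=
  {c | (∀ i, |c i| ≤ H) ∧ ∃ (V : Fin r → Fin 3 → K) (u : Fin s → Kˣ) (w : Fin m → K),
    (∀ i, FD.OnE (a i) (b i) (V i)) ∧ (∀ l, u l ∈ Γ) ∧
      ∀ e, w e ^ 2 = vl (algebraMap (𝓞 K) K) (F e) V (fun l => ((u l : Kˣ) : K))
        (fun i => ((vec ω c i : 𝓞 K) : K))}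

def SieveDCM : Prop := ∀ (K : Type) [Field K] [NumberField K] (N : ℕ)
  (ω : Module.Basis (Fin N) ℤ (𝓞 K)) (r s n m : ℕ), 1 ≤ n → ∀ (a b : Fin r → ℤ),
  (∀ i, a i * b i = 0 ∧ (a i ≠ 0 ∨ b i ≠ 0)) → ∀ Γ : Subgroup Kˣ, Γ.FG →
  ∀ (F : Fin m → Pol (𝓞 K) r s n) (d : Fin m → Fin r → ℕ), (∀ e i, Even (d e i)) →
  (∀ e, MHomog (F e) (d e)) → ∀ (σ : K →+* ℂ),
  (∀ (V : Fin r → Fin 3 → ℂ) (u : Fin s → ℂ), (∀ i, FD.OnE (a i) (b i) (V i)) → (∀ l, u l ≠ 0) →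
    ∃ e, ∀ g : MvPolynomial (Fin n) ℂ, spc (toC σ) (F e) V u ≠ g ^ 2) →
  ∃ p₀ R : ℕ, ∀ (T : Finset ℕ) (L : ℕ), GoodT K p₀ T L → ∀ H : ℕ, ∏ p ∈ T, p ≤ 2 * H + 1 →
    (((FibMS ω a b Γ F H).ncard : ℕ) : ℝ) ≤
      (2 * (2 * (H : ℝ) + 1)) ^ Fintype.card (Fin n × Fin N) * ((L : ℝ) ^ R * (2 / 3) ^ T.card)

theorem sieveDCM (hCL : ClassesS) (hLINE : FK.S_LINEK) (hULT : ULTM.S_ULTM) (hPRE : FK.S_PRE)
    (hBOX : BOX) : SieveDCM := by
  classical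
  intro K _ _ N ω r s n m hn a b hab Γ hΓ F d hd hF σ hns
  obtain ⟨p₀, R, hcl⟩ := hCL K r s a b hab Γ hΓ
  obtain ⟨p₁, hp₁⟩ := hULT K r s n m a b F σ hns
  obtain ⟨q₁, hq₁⟩ := hLINE n (∑ e, (F e).totalDegree) hn
  refine ⟨p₀ + p₁ + q₁ + 5, R, ?_⟩
  intro T L hT H hH
  obtain ⟨hL, hT⟩ := hT
  have hTp : ∀ p ∈ T, p.Prime := fun p hp => (hT p hp).1
  obtain ⟨Q, _, hQ, cls, hcls⟩ := hcl L hL
  choose m' hm using hd
  -- the local data
  have key : ∀ p : ℕ, p ∈ T → ∃ G : Q → Set (Fin n × Fin N → ZMod p),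
      (∀ x, (((G x).ncard : ℕ) : ℝ) ≤ 2 / 3 * (p : ℝ) ^ Fintype.card (Fin n × Fin N)) ∧
      ∀ (V : Fin r → Fin 3 → K) (u : Fin s → Kˣ) (w : Fin m → K) (c : Fin n × Fin N → ℤ),
        (∀ i, FD.OnE (a i) (b i) (V i)) → (∀ l, u l ∈ Γ) →
        (∀ e, w e ^ 2 = vl (algebraMap (𝓞 K) K) (F e) V (fun l => ((u l : Kˣ) : K))
          (fun i => ((vec ω c i : 𝓞 K) : K))) → (fun s => (c s : ZMod p)) ∈ G (cls V u) := by
    intro p hp
    obtain ⟨hpp, hp0, h12, ⟨k, _, _, hcard, φ, hφ⟩, hL1, hL2⟩ := hT p hp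
    haveI : Fact p.Prime := ⟨hpp⟩
    haveI : CharP k p := charP_of_card hpp hcard
    have hpcard : p ≤ Fintype.card k := by
      rcases hcard with h | h
      · exact h.ge
      · rw [h]; exact Nat.le_self_pow two_ne_zero p
    have h2k : (2 : k) ≠ 0 := by
      intro h
      have h5 : ((2 : ℕ) : k) = 0 := by exact_mod_cast h
      rw [CharP.cast_eq_zero_iff k p] at h5
      have := Nat.le_of_dvd (by norm_num) h5
      omega
    obtain ⟨V', u', hVu⟩ := hcls p hpp (by omega) h12 hL1 hL2 k hcard φ hφ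
    -- for a class without points take the empty set
    have hG : ∀ x : Q, ∃ G : Set (Fin n × Fin N → ZMod p),
        (((G).ncard : ℕ) : ℝ) ≤ 2 / 3 * (p : ℝ) ^ Fintype.card (Fin n × Fin N) ∧
        (OnG a b (V' x) (u' x) → ∀ c : Fin n × Fin N → ℤ,
          (∀ e, (fun i => φ (vec ω c i)) ∈ FD.Sq (spc φ (F e) (V' x) (u' x))) →
          (fun s => (c s : ZMod p)) ∈ G) := by
      intro x
      by_cases hx : OnG a b (V' x) (u' x)
      · obtain ⟨e, he⟩ := hp₁ p hpp (by omega) k φ _ _ hx.1 hx.2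
        have hΩ : (((FD.Sq (spc φ (F e) (V' x) (u' x))).ncard : ℕ) : ℝ) ≤
            2 / 3 * (Fintype.card k : ℝ) ^ n :=
          hq₁ k h2k (by omega) _ ((spc_degree φ (F e) _ _).trans
            (Finset.single_le_sum (f := fun e => (F e).totalDegree) (fun _ _ => Nat.zero_le _)
              (Finset.mem_univ e))) he
        obtain ⟨G, hG1, hG2⟩ := hPRE K n N ω p k hcard φ hφ
          (FD.Sq (spc φ (F e) (V' x) (u' x))) (2 / 3) hΩ
        exact ⟨G, hG1, fun _ c hc => hG2 c (hc e)⟩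
      · exact ⟨∅, by rw [Set.ncard_empty, Nat.cast_zero]; positivity, fun h => absurd h hx⟩
    choose G hG1 hG2 using hG
    refine ⟨G, hG1, ?_⟩
    intro V u w c hV hu hw
    obtain ⟨hO, v, z, hv, hz, hval⟩ := hVu V u hV hu
    apply hG2 _ hO
    intro e
    obtain ⟨h4, h5⟩ := hval n (F e) (d e) (hF e) (vec ω c)
    have hsq : ((∏ i, z i ^ m' e i) * w e) ^ 2 = (∏ i, z i ^ d e i) *
        vl (algebraMap (𝓞 K) K) (F e) V (fun l => ((u l : Kˣ) : K))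
          (fun i => ((vec ω c i : 𝓞 K) : K)) := by
      rw [mul_pow, hw e]
      congr 1
      rw [← Finset.prod_pow]
      refine Finset.prod_congr rfl fun i _ => ?_
      rw [hm e i, ← pow_mul, mul_two]
    rw [← hsq] at h4 h5
    have hmem := v.mem_of_pow_mem (by norm_num) h4
    refine ⟨v.r ((∏ i, z i ^ m' e i) * w e), ?_⟩
    rw [← v.r_pow hmem, h5, vl_eq]
  choose G0 hG1 hG2 using key
  let G : Q → (p : ℕ) → Set (Fin n × Fin N → ZMod p) := fun x p => {c | ∃ hp : p ∈ T, c ∈ G0 p hp x}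
  have hGeq : ∀ x (p : ℕ) (hp : p ∈ T), G x p = G0 p hp x := by
    intro x p hp
    ext c
    exact ⟨fun ⟨_, h⟩ => h, fun h => ⟨hp, h⟩⟩
  have hB : ∀ x, (({c : Fin n × Fin N → ℤ | c ∈ Box (Fin n × Fin N) H ∧
      ∀ p ∈ T, (fun s => (c s : ZMod p)) ∈ G x p}.ncard : ℕ) : ℝ) ≤
      (2 * (2 * (H : ℝ) + 1)) ^ Fintype.card (Fin n × Fin N) * (2 / 3) ^ T.card := fun x =>
    hBOX (Fin n × Fin N) T hTp (G x) (2 / 3) (by norm_num) (by
      intro p hp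
      rw [hGeq x p hp]
      exact hG1 p hp x) H hH
  have hsub : FibMS ω a b Γ F H ⊆ ⋃ x ∈ (Finset.univ : Finset Q),
      {c : Fin n × Fin N → ℤ | c ∈ Box (Fin n × Fin N) H ∧
        ∀ p ∈ T, (fun s => (c s : ZMod p)) ∈ G x p} := by
    rintro c ⟨hc1, V, u, w, hV, hu, hw⟩
    rw [Set.mem_iUnion₂]
    refine ⟨cls V u, Finset.mem_univ _, ?_, ?_⟩
    · unfold Box
      rw [Fintype.mem_piFinset]
      intro s
      rw [Finset.mem_Icc]
      exact abs_le.1 (hc1 s)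
    intro p hp
    rw [hGeq _ p hp]
    exact hG2 p hp V u w c hV hu hw
  have hfin : (⋃ x ∈ (Finset.univ : Finset Q),
      {c : Fin n × Fin N → ℤ | c ∈ Box (Fin n × Fin N) H ∧
        ∀ p ∈ T, (fun s => (c s : ZMod p)) ∈ G x p}).Finite := by
    apply Set.Finite.subset (Box (Fin n × Fin N) H).finite_toSet
    intro c hc
    rw [Set.mem_iUnion₂] at hc
    obtain ⟨_, _, hc, _⟩ := hc
    exact hc
  have hcard : (((Finset.univ : Finset Q).card : ℕ) : ℝ) ≤ (L : ℝ) ^ R := by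
    rw [Finset.card_univ]
    exact_mod_cast hQ
  set s₀ := Fintype.card (Fin n × Fin N) with hs₀
  calc (((FibMS ω a b Γ F H).ncard : ℕ) : ℝ)
      ≤ (((⋃ x ∈ (Finset.univ : Finset Q), {c : Fin n × Fin N → ℤ |
          c ∈ Box (Fin n × Fin N) H ∧
          ∀ p ∈ T, (fun s => (c s : ZMod p)) ∈ G x p}).ncard : ℕ) : ℝ) := by
        exact_mod_cast Set.ncard_le_ncard hsub hfin
    _ ≤ ((∑ x ∈ (Finset.univ : Finset Q), {c : Fin n × Fin N → ℤ | c ∈ Box (Fin n × Fin N) H ∧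
          ∀ p ∈ T, (fun s => (c s : ZMod p)) ∈ G x p}.ncard : ℕ) : ℝ) := by
        exact_mod_cast Finset.set_ncard_biUnion_le _ _
    _ = ∑ x ∈ (Finset.univ : Finset Q), (({c : Fin n × Fin N → ℤ |
          c ∈ Box (Fin n × Fin N) H ∧
          ∀ p ∈ T, (fun s => (c s : ZMod p)) ∈ G x p}.ncard : ℕ) : ℝ) := by
        push_cast
        rfl
    _ ≤ ∑ x ∈ (Finset.univ : Finset Q), (2 * (2 * (H : ℝ) + 1)) ^ s₀ *
          (2 / 3) ^ T.card := Finset.sum_le_sum fun x _ => hB x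
    _ = (((Finset.univ : Finset Q).card : ℕ) : ℝ) * ((2 * (2 * (H : ℝ) + 1)) ^ s₀ *
          (2 / 3) ^ T.card) := by rw [Finset.sum_const, nsmul_eq_mul]
    _ ≤ (L : ℝ) ^ R * ((2 * (2 * (H : ℝ) + 1)) ^ s₀ *
          (2 / 3) ^ T.card) := mul_le_mul_of_nonneg_right hcard (by positivity)
    _ = (2 * (2 * (H : ℝ) + 1)) ^ s₀ * ((L : ℝ) ^ R *
          (2 / 3) ^ T.card) := by ring

/-- the theorem on double covers -/
def MainDCM : Prop := ∀ (K : Type) [Field K] [NumberField K] (N : ℕ)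
  (ω : Module.Basis (Fin N) ℤ (𝓞 K)) (r s n m : ℕ), 1 ≤ n → ∀ (a b : Fin r → ℤ),
  (∀ i, a i * b i = 0 ∧ (a i ≠ 0 ∨ b i ≠ 0)) → ∀ Γ : Subgroup Kˣ, Γ.FG →
  ∀ (F : Fin m → Pol (𝓞 K) r s n) (d : Fin m → Fin r → ℕ), (∀ e i, Even (d e i)) →
  (∀ e, MHomog (F e) (d e)) → ∀ (σ : K →+* ℂ),
  (∀ (V : Fin r → Fin 3 → ℂ) (u : Fin s → ℂ), (∀ i, FD.OnE (a i) (b i) (V i)) → (∀ l, u l ≠ 0) →
    ∃ e, ∀ g : MvPolynomial (Fin n) ℂ, spc (toC σ) (F e) V u ≠ g ^ 2) →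
  ∃ c : ℝ, 0 < c ∧ ∃ H₀ : ℕ, ∀ H : ℕ, H₀ ≤ H →
    (((FibMS ω a b Γ F H).ncard : ℕ) : ℝ) ≤
      (2 * (H : ℝ) + 1) ^ (n * N) * Real.exp (-c * (Real.log H / Real.log (Real.log H)))

theorem mainDCM (hS : SieveDCM) (hHOM : FK.S_HOM) (hSP : S_SP2) (hLY : LY) (hASY : ASYK) :
    MainDCM := by
  classical
  intro K _ _ N ω r s n m hn a b hab Γ hΓ F d hd hF σ hns
  obtain ⟨p₀, R, hSv⟩ := hS K N ω r s n m hn a b hab Γ hΓ F d hd hF σ hns
  obtain ⟨M, _, _, hM1, hM3, hM⟩ := hHOM K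
  obtain ⟨τ, hτ0, hτ1, κ, hκ, Y, hY⟩ := hSP M True True (fun _ => hM1) (fun _ => hM3)
  obtain ⟨Y₂, hY₂⟩ := floor_step2 hτ0 hτ1
  obtain ⟨c, hc, H₀, hH3, hA⟩ := hASY (Fintype.card (Fin n × Fin N)) R (κ / 2) ((τ + 1) / 2)
    (by positivity) (by linarith) (by linarith)
  set M' : ℕ := p₀ + 2 with hM'
  set N' : ℕ := ⌈(4 * (M' : ℝ) / κ) ^ 2⌉₊ with hN'
  refine ⟨c, hc, max H₀ (4 ^ (max Y (max 3 (max N' Y₂)))), ?_⟩
  intro H hH
  have hH0 : H₀ ≤ H := (le_max_left _ _).trans hH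
  have hH1 : 4 ^ (max Y (max 3 (max N' Y₂))) ≤ H := (le_max_right _ _).trans hH
  have hy0 := W_Z1K.le_floor_of_pow hH1
  have hpow := W_Z1K.pow_le_of_floor H
  set y : ℕ := ⌊Real.log (2 * H + 1) / Real.log 4⌋₊ with hy
  have hyY : Y ≤ y := (le_max_left _ _).trans hy0
  have hy3 : 3 ≤ y := ((le_max_left _ _).trans (le_max_right _ _)).trans hy0
  have hyN : N' ≤ y := (((le_max_left _ _).trans (le_max_right _ _)).trans (le_max_right _ _)).trans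
    hy0
  have hyY2 : Y₂ ≤ y := (((le_max_right _ _).trans (le_max_right _ _)).trans
    (le_max_right _ _)).trans hy0
  set T : Finset ℕ := ((DegP M True True y \ RoughP τ y) \ RoughM τ y).filter (fun p => M' ≤ p)
    with hT
  have hmemT : ∀ p ∈ T, (1 ≤ p ∧ p ≤ y) ∧ (p.Prime ∧ CondP True True p ∧
      Nonempty (𝓞 M →+* ZMod p)) ∧
      (∀ q : ℕ, q.Prime → q ∣ p + 1 → q ≤ ⌊(y : ℝ) ^ τ⌋₊) ∧
      (∀ q : ℕ, q.Prime → q ∣ p - 1 → q ≤ ⌊(y : ℝ) ^ τ⌋₊) ∧ M' ≤ p := by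
    intro p hp
    rw [hT, Finset.mem_filter, Finset.mem_sdiff, Finset.mem_sdiff] at hp
    obtain ⟨⟨⟨h1, h3⟩, h4⟩, h2⟩ := hp
    unfold DegP at h1
    rw [Finset.mem_filter, Finset.mem_Icc] at h1
    refine ⟨h1.1, h1.2, ?_, ?_, h2⟩
    · intro q hq hqp
      by_contra hcon
      apply h3
      unfold RoughP
      rw [Finset.mem_filter, Finset.mem_Icc]
      exact ⟨h1.1, h1.2.1, q, hq, hqp, not_le.1 hcon⟩
    · intro q hq hqp
      by_contra hcon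
      apply h4
      unfold RoughM
      rw [Finset.mem_filter, Finset.mem_Icc]
      exact ⟨h1.1, h1.2.1, q, hq, hqp, not_le.1 hcon⟩
  -- cardinality
  have hcard : ((((DegP M True True y \ RoughP τ y) \ RoughM τ y)).card : ℝ) ≤
      (T.card : ℝ) + M' := by
    have h1 : ((DegP M True True y \ RoughP τ y) \ RoughM τ y) ⊆ T ∪ Finset.range M' := by
      intro p hp
      rw [Finset.mem_union]
      by_cases hpM : M' ≤ p
      · left
        rw [hT, Finset.mem_filter]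
        exact ⟨hp, hpM⟩
      · right
        rw [Finset.mem_range]
        omega
    have h2 := (Finset.card_le_card h1).trans (Finset.card_union_le _ _)
    rw [Finset.card_range] at h2
    exact_mod_cast h2
  have hκy := hY y hyY
  have hyr3 : (3 : ℝ) ≤ (y : ℝ) := by exact_mod_cast hy3
  have hMy : (M' : ℝ) ≤ κ / 2 * (y / Real.log y) := by
    have h1 := W_Z1K.div_log_ge hyr3
    have h2 : 4 * (M' : ℝ) / κ ≤ Real.sqrt y := by
      apply Real.le_sqrt_of_sq_le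
      have h3 : (4 * (M' : ℝ) / κ) ^ 2 ≤ (N' : ℝ) := Nat.le_ceil _
      have h4 : (N' : ℝ) ≤ (y : ℝ) := by exact_mod_cast hyN
      exact h3.trans h4
    have h5 : 4 * (M' : ℝ) ≤ Real.sqrt y * κ := by
      rwa [div_le_iff₀ hκ] at h2
    have h6 : κ / 2 * (Real.sqrt y / 2) ≤ κ / 2 * (y / Real.log y) :=
      mul_le_mul_of_nonneg_left h1 (by positivity)
    nlinarith
  have hTcard : κ / 2 * (y / Real.log y) ≤ (T.card : ℝ) := by
    have h1 : κ * (y / Real.log y) = κ / 2 * (y / Real.log y) + κ / 2 * (y / Real.log y) := by ring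
    linarith
  -- the integer L
  obtain ⟨L, hL1, hL2, hL3⟩ := hLY y ⌊(y : ℝ) ^ τ⌋₊
  have hL2' : ((2 * L ^ 2 : ℕ) : ℝ) ≤ ((y : ℝ) + 1) ^ ⌊(y : ℝ) ^ ((τ + 1) / 2)⌋₊ := by
    have h1 : (L : ℝ) ≤ ((y : ℝ) + 1) ^ ⌊(y : ℝ) ^ τ⌋₊ := by exact_mod_cast hL2
    have h2 : ((y : ℝ) + 1) ^ (2 * ⌊(y : ℝ) ^ τ⌋₊ + 1) ≤
        ((y : ℝ) + 1) ^ ⌊(y : ℝ) ^ ((τ + 1) / 2)⌋₊ :=
      pow_le_pow_right₀ (by linarith) (hY₂ y hyY2)
    refine le_trans ?_ h2
    rw [pow_succ ((y : ℝ) + 1), mul_comm 2 ⌊(y : ℝ) ^ τ⌋₊, pow_mul]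
    push_cast
    have h3 : (0 : ℝ) ≤ (L : ℝ) := by positivity
    have h4 := pow_le_pow_left₀ h3 h1 2
    have h5 : (0 : ℝ) ≤ (L : ℝ) ^ 2 := by positivity
    nlinarith
  have hGT : GoodT K p₀ T (2 * L ^ 2) := by
    refine ⟨by have := Nat.pow_pos (n := 2) hL1; omega, ?_⟩
    intro p hpT
    obtain ⟨h1, ⟨h2, h3, h6⟩, h4, h4', h5⟩ := hmemT p hpT
    haveI : Fact p.Prime := ⟨h2⟩
    have h7 := h3.1 trivial
    have h8 := h3.2 trivial
    have h9 : p + 1 ∣ L := hL3 (p + 1) (by omega) (by omega) h4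
    have h10 : p - 1 ∣ L := hL3 (p - 1) (by omega) (by omega) h4'
    refine ⟨h2, by omega, by omega, hM p h7 h6, ?_, ?_⟩
    · exact Nat.mul_dvd_mul_left 2 (h9.trans (dvd_pow_self _ two_ne_zero))
    · have h11 : p ^ 2 - 1 = (p + 1) * (p - 1) := by
        have := Nat.sq_sub_sq p 1
        simpa using this
      rw [h11, pow_two]
      exact (mul_dvd_mul h9 h10).trans (dvd_mul_left _ _)
  have hprod : ∏ p ∈ T, p ≤ 2 * H + 1 := by
    have h1 : ∏ p ∈ T, p ≤ primorial y := by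
      unfold primorial
      apply Finset.prod_le_prod_of_subset_of_one_le'
      · intro p hp
        obtain ⟨h1, h2, h3, h4⟩ := hmemT p hp
        rw [Finset.mem_filter, Finset.mem_range]
        exact ⟨by omega, h2.1⟩
      · intro p hp _
        exact (Finset.mem_filter.1 hp).2.one_lt.le
    exact (h1.trans (primorial_le_four_pow y)).trans hpow
  have hfin := hSv T (2 * L ^ 2) hGT H hprod
  have hfin2 := hfin.trans (hA H hH0 y T.card (2 * L ^ 2) hy hTcard hL2')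
  rwa [Fintype.card_prod, Fintype.card_fin, Fintype.card_fin] at hfin2

theorem dcM : MainDCM :=
  mainDCM (sieveDCM t_classes Pool.Agent.W462.FK.main (ULTM.main Pool.Agent.W578.SA.TRK.main)
    Pool.Agent.W346.FK.main t_BOX) _root_.W580.FK.main sp2 t_LY t_ASYK

/-- the coefficient vectors of the `m ∈ (𝓞 K)ⁿ` in a box such that there is a point of the cover
`w_e² = F_e(P, u; t)`, `e = 1, …, m`, with `P ∈ A(K)`, torus coordinates in `Γ` and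
`t = (z_1 m_1, …, z_n m_n)`, `z_k ∈ Γ` -/
def FibM {K : Type} [Field K] [NumberField K] {N : ℕ} (ω : Module.Basis (Fin N) ℤ (𝓞 K))
    {r s n m : ℕ} (a b : Fin r → ℤ) (Γ : Subgroup Kˣ) (F : Fin m → Pol (𝓞 K) r s n) (H : ℕ) :
    Set (Fin n × Fin N → ℤ) :=
  {c | (∀ i, |c i| ≤ H) ∧ ∃ (V : Fin r → Fin 3 → K) (u : Fin s → Kˣ) (z : Fin n → Kˣ)
    (w : Fin m → K), (∀ i, FD.OnE (a i) (b i) (V i)) ∧ (∀ l, u l ∈ Γ) ∧ (∀ k, z k ∈ Γ) ∧
      ∀ e, w e ^ 2 = vl (algebraMap (𝓞 K) K) (F e) V (fun l => ((u l : Kˣ) : K))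
        (fun k => ((z k : Kˣ) : K) * ((vec ω c k : 𝓞 K) : K))}

theorem fibM_eq {K : Type} [Field K] [NumberField K] {N : ℕ} (ω : Module.Basis (Fin N) ℤ (𝓞 K))
    {r s n m : ℕ} (a b : Fin r → ℤ) (Γ : Subgroup Kˣ) (F : Fin m → Pol (𝓞 K) r s n) (H : ℕ) :
    FibM ω a b Γ F H = FibMS ω a b Γ (fun e => scaleT (F e)) H := by
  ext c
  unfold FibM FibMS
  constructor
  · rintro ⟨h1, V, u, z, w, hV, hu, hz, hw⟩
    refine ⟨h1, V, Fin.append u z, w, hV, fun l => ?_, fun e => ?_⟩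
    · refine Fin.addCases (fun l => ?_) (fun k => ?_) l
      · rw [Fin.append_left]
        exact hu l
      · rw [Fin.append_right]
        exact hz k
    · rw [hw e, ← vl_scaleT]
      congr 1
      funext l
      refine Fin.addCases (fun l => ?_) (fun k => ?_) l
      · rw [Fin.append_left, Fin.append_left]
      · rw [Fin.append_right, Fin.append_right]
  · rintro ⟨h1, V, u, w, hV, hu, hw⟩
    refine ⟨h1, V, fun l => u (Fin.castAdd n l), fun k => u (Fin.natAdd s k), w, hV,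
      fun l => hu _, fun k => hu _, fun e => ?_⟩
    rw [hw e, ← vl_scaleT]
    congr 1
    funext l
    refine Fin.addCases (fun l => ?_) (fun k => ?_) l
    · rw [Fin.append_left]
    · rw [Fin.append_right]

theorem dcMZ (K : Type) [Field K] [NumberField K] (N : ℕ) (ω : Module.Basis (Fin N) ℤ (𝓞 K))
    (r s n m : ℕ) (hn : 1 ≤ n) (a b : Fin r → ℤ) (hab : ∀ i, a i * b i = 0 ∧ (a i ≠ 0 ∨ b i ≠ 0))
    (Γ : Subgroup Kˣ) (hΓ : Γ.FG) (F : Fin m → Pol (𝓞 K) r s n) (d : Fin m → Fin r → ℕ)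
    (hd : ∀ e i, Even (d e i)) (hF : ∀ e, MHomog (F e) (d e)) (σ : K →+* ℂ)
    (hns : ∀ (V : Fin r → Fin 3 → ℂ) (u : Fin s → ℂ), (∀ i, FD.OnE (a i) (b i) (V i)) →
      (∀ l, u l ≠ 0) → ∃ e, ∀ g : MvPolynomial (Fin n) ℂ, spc (toC σ) (F e) V u ≠ g ^ 2) :
    ∃ c : ℝ, 0 < c ∧ ∃ H₀ : ℕ, ∀ H : ℕ, H₀ ≤ H →
    (((FibM ω a b Γ F H).ncard : ℕ) : ℝ) ≤
      (2 * (H : ℝ) + 1) ^ (n * N) * Real.exp (-c * (Real.log H / Real.log (Real.log H))) := by
  have h := dcM K N ω r (s + n) n m hn a b hab Γ hΓ (fun e => scaleT (F e)) d hd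
    (fun e => scaleT_homog (F e) (d e) (hF e)) σ (by
    intro V u hV hu
    have h1 : u = Fin.append (fun l => u (Fin.castAdd n l)) (fun k => u (Fin.natAdd s k)) := by
      funext l
      refine Fin.addCases (fun l => ?_) (fun k => ?_) l
      · rw [Fin.append_left]
      · rw [Fin.append_right]
    obtain ⟨e, he⟩ := hns V (fun l => u (Fin.castAdd n l)) hV (fun l => hu _)
    refine ⟨e, fun g => ?_⟩
    rw [h1]
    exact spc_scaleT_ne (toC σ) (F e) V _ _ (fun k => hu _) he g)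
  simpa only [fibM_eq] using h

end Pool.Agent.W659.SA
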