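import Pool.Agent.W659.SA.Final

/-! Project SA (helper659): homogeneous equations, counting. -/

set_option autoImplicit false

namespace Pool.Agent.W659.SA

open MvPolynomial NumberField Pool.Agent.H901R3.MS

/-- homogeneous of degree `k` in the parameters -/
def XHomog {O : Type} [CommRing O] {r s n : ℕ} (F : Pol O r s n) (k : ℕ) : Prop :=
  ∀ m ∈ F.support, ∑ i, m (Sum.inr (Sum.inr i)) = k

theorem XHomog.xsupp {O : Type} [CommRing O] {r s n : ℕ} {F : Pol O r s n} {k : ℕ}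
    (h : XHomog F k) : XSupp F (Finset.finsuppAntidiag Finset.univ k) := by
  intro m hm
  refine ⟨Finsupp.equivFunOnFinite.symm fun i => m (Sum.inr (Sum.inr i)), ?_, fun i => rfl⟩
  rw [Finset.mem_finsuppAntidiag]
  refine ⟨?_, Finset.subset_univ _⟩
  exact h m hm

theorem isHomog_of_supp {K : Type} [Field K] {n k : ℕ} {f : MvPolynomial (Fin n) K}
    (h : f.support ⊆ Finset.finsuppAntidiag Finset.univ k) : f.IsHomogeneous k := by
  intro m hm
  have h1 := h (mem_support_iff.2 hm)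
  rw [Finset.mem_finsuppAntidiag] at h1
  rw [Finsupp.weight_apply, Finsupp.sum_fintype _ _ (fun _ => by simp)]
  simpa using h1.1

/-- the number of the points in the box which satisfy one equation in each block -/
theorem count_one {K : Type} [Field K] [NumberField K] {N : ℕ}
    (ω : Module.Basis (Fin N) ℤ (𝓞 K)) {B : ℕ} {n k : Fin B → ℕ}
    (f : (j : Fin B) → MvPolynomial (Fin (n j + 1)) K) (hf : ∀ j, f j ≠ 0 ∧ (f j).IsHomogeneous (k j))
    (H : ℕ) :
    {c : (j : Fin B) → Fin (n j + 1) × Fin N → ℤ | (∀ j i, |c j i| ≤ H) ∧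
      ∀ j, eval (fun i => ((vec ω (c j) i : 𝓞 K) : K)) (f j) = 0}.Finite ∧
    {c : (j : Fin B) → Fin (n j + 1) × Fin N → ℤ | (∀ j i, |c j i| ≤ H) ∧
      ∀ j, eval (fun i => ((vec ω (c j) i : 𝓞 K) : K)) (f j) = 0}.ncard ≤
      ∏ j, (k j * (2 * H + 1) ^ (N * n j)) := by
  classical
  have hfin : ∀ j, {c : Fin (n j + 1) × Fin N → ℤ | (∀ i, |c i| ≤ H) ∧
      eval (fun i => ((vec ω c i : 𝓞 K) : K)) (f j) = 0}.Finite := by
    intro j
    refine Set.Finite.subset (Box (Fin (n j + 1) × Fin N) H).finite_toSet ?_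
    rintro c ⟨hc, _⟩
    rw [Finset.mem_coe]
    unfold Box
    rw [Fintype.mem_piFinset]
    intro s
    rw [Finset.mem_Icc]
    exact abs_le.1 (hc s)
  have heq : {c : (j : Fin B) → Fin (n j + 1) × Fin N → ℤ | (∀ j i, |c j i| ≤ H) ∧
      ∀ j, eval (fun i => ((vec ω (c j) i : 𝓞 K) : K)) (f j) = 0} =
      ((Fintype.piFinset fun j => (hfin j).toFinset : Finset _) :
        Set ((j : Fin B) → Fin (n j + 1) × Fin N → ℤ)) := by
    ext c
    rw [Finset.mem_coe, Fintype.mem_piFinset]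
    constructor
    · rintro ⟨h1, h2⟩ j
      rw [Set.Finite.mem_toFinset]
      exact ⟨h1 j, h2 j⟩
    · intro h
      refine ⟨fun j => ?_, fun j => ?_⟩
      · have := h j
        rw [Set.Finite.mem_toFinset] at this
        exact this.1
      · have := h j
        rw [Set.Finite.mem_toFinset] at this
        exact this.2
  rw [heq]
  refine ⟨Finset.finite_toSet _, ?_⟩
  rw [Set.ncard_coe_finset, Fintype.card_piFinset]
  refine Finset.prod_le_prod (fun _ _ => Nat.zero_le _) fun j _ => ?_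
  rw [← Set.ncard_eq_toFinset_card _ (hfin j)]
  refine (Pool.Agent.W417.SA.SZ.main K N ω (n j) (f j) (hf j).1 H).trans ?_
  rw [(hf j).2.totalDegree (hf j).1]

/-- the number of the points covered -/
theorem count_cover {K : Type} [Field K] [NumberField K] {N : ℕ}
    (ω : Module.Basis (Fin N) ℤ (𝓞 K)) {B : ℕ} {n k : Fin B → ℕ} (H : ℕ)
    (S : Set ((j : Fin B) → Fin (n j + 1) × Fin N → ℤ)) (hS : ∀ c ∈ S, ∀ j i, |c j i| ≤ H)
    (FF : Finset ((j : Fin B) → MvPolynomial (Fin (n j + 1)) K))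
    (hF : ∀ f ∈ FF, ∀ j, f j ≠ 0 ∧ (f j).IsHomogeneous (k j))
    (hc : ∀ c ∈ S, ∃ f ∈ FF, ∀ j, eval (fun i => ((vec ω (c j) i : 𝓞 K) : K)) (f j) = 0) :
    S.ncard ≤ FF.card * ∏ j, (k j * (2 * H + 1) ^ (N * n j)) := by
  classical
  have hsub : S ⊆ ⋃ f ∈ FF, {c : (j : Fin B) → Fin (n j + 1) × Fin N → ℤ |
      (∀ j i, |c j i| ≤ H) ∧ ∀ j, eval (fun i => ((vec ω (c j) i : 𝓞 K) : K)) (f j) = 0} := by
    intro c hcS
    obtain ⟨f, hf, h⟩ := hc c hcS
    rw [Set.mem_iUnion₂]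
    exact ⟨f, hf, hS c hcS, h⟩
  have hfin : (⋃ f ∈ FF, {c : (j : Fin B) → Fin (n j + 1) × Fin N → ℤ |
      (∀ j i, |c j i| ≤ H) ∧
        ∀ j, eval (fun i => ((vec ω (c j) i : 𝓞 K) : K)) (f j) = 0}).Finite := by
    refine Set.Finite.biUnion FF.finite_toSet fun f hf => ?_
    exact (count_one ω f (hF f hf) H).1
  refine (Set.ncard_le_ncard hsub hfin).trans ?_
  refine (Finset.set_ncard_biUnion_le _ _).trans ?_
  rw [← smul_eq_mul, ← Finset.sum_const]
  exact Finset.sum_le_sum fun f hf => (count_one ω f (hF f hf) H).2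

end Pool.Agent.W659.SA
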