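import Pool.Agent.W659.SA.DCH
import Pool.Agent.W659.SA.Count

/-! Project SA (helper659): projective varieties over a number field, points over all finite
extensions; hyperbolicity. -/

set_option autoImplicit false

namespace Pool.Agent.W659.SA

open MvPolynomial NumberField Pool.Agent.H901R3.MS

/-- polynomials with coefficients in `O` in the homogeneous coordinates `V i j` of `r` plane cubics
and `n` coordinates `x k` -/
abbrev Pol0 (O : Type) [CommRing O] (r n : ℕ) : Type := Pol O r 0 n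

/-- the value `F(V; x)`, the coefficients being mapped to `k` by `φ` -/
noncomputable def vl0 {O k : Type} [CommRing O] [CommRing k] (φ : O →+* k) {r n : ℕ}
    (F : Pol0 O r n) (V : Fin r → Fin 3 → k) (x : Fin n → k) : k := vl φ F V (fun _ => 0) x

/-- the polynomial `F(V; T_1, …, T_n)` in `n` variables over `k` -/
noncomputable def spc0 {O k : Type} [CommRing O] [CommRing k] (φ : O →+* k) {r n : ℕ}
    (F : Pol0 O r n) (V : Fin r → Fin 3 → k) : MvPolynomial (Fin n) k := spc φ F V (fun _ => 0)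

theorem vl_torus0 {O k : Type} [CommRing O] [CommRing k] (φ : O →+* k) {r n : ℕ}
    (F : Pol0 O r n) (V : Fin r → Fin 3 → k) (u : Fin 0 → k) (x : Fin n → k) :
    vl φ F V u x = vl0 φ F V x := by
  unfold vl0
  congr 1
  exact Subsingleton.elim _ _

theorem spc_torus0 {O k : Type} [CommRing O] [CommRing k] (φ : O →+* k) {r n : ℕ}
    (F : Pol0 O r n) (V : Fin r → Fin 3 → k) (u : Fin 0 → k) :
    spc φ F V u = spc0 φ F V := by
  unfold spc0
  congr 1
  exact Subsingleton.elim _ _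

/-- the embedding of `𝓞 K` in an extension `L` of `K` -/
noncomputable def toL (K L : Type) [Field K] [Field L] [Algebra K L] : 𝓞 K →+* L :=
  (algebraMap K L).comp (algebraMap (𝓞 K) K)

/-- the coefficient vectors of the `x ∈ (𝓞 L)ⁿ` in a box for which there are `P ∈ A(L)` and
`w_i ∈ L` with `G_e(P; x) = 0` for all `e` and `w_i² = F_i(P; x)` for all `i` -/
def FibL (K : Type) [Field K] {L : Type} [Field L] [NumberField L] [Algebra K L] {N : ℕ}
    (ω : Module.Basis (Fin N) ℤ (𝓞 L)) {r n q m : ℕ} (a b : Fin r → ℤ)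
    (G : Fin q → Pol0 (𝓞 K) r n) (F : Fin m → Pol0 (𝓞 K) r n) (H : ℕ) :
    Set (Fin n × Fin N → ℤ) :=
  {c | (∀ i, |c i| ≤ H) ∧ ∃ (V : Fin r → Fin 3 → L) (w : Fin m → L),
    (∀ i, FD.OnE (a i) (b i) (V i)) ∧
      (∀ e, vl0 (toL K L) (G e) V (fun i => ((vec ω c i : 𝓞 L) : L)) = 0) ∧
      ∀ i, w i ^ 2 = vl0 (toL K L) (F i) V (fun i => ((vec ω c i : 𝓞 L) : L))}

theorem MHomog.map {O O' : Type} [CommRing O] [CommRing O'] (ψ : O →+* O') {r s n : ℕ}
    {F : Pol O r s n} {d : Fin r → ℕ} (h : MHomog F d) : MHomog (MvPolynomial.map ψ F) d :=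
  fun m hm => h m (support_map_subset _ _ hm)

theorem XHomog.map {O O' : Type} [CommRing O] [CommRing O'] (ψ : O →+* O') {r s n k : ℕ}
    {F : Pol O r s n} (h : XHomog F k) : XHomog (MvPolynomial.map ψ F) k :=
  fun m hm => h m (support_map_subset _ _ hm)

theorem spc_mapc {O O' k : Type} [CommRing O] [CommRing O'] [CommRing k] (ψ : O →+* O')
    (φ : O' →+* k) {r s n : ℕ} (F : Pol O r s n) (V : Fin r → Fin 3 → k) (u : Fin s → k) :
    spc φ (MvPolynomial.map ψ F) V u = spc (φ.comp ψ) F V u := by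
  unfold spc
  rw [eval₂_map]
  rfl

theorem vl_mapc {O O' k : Type} [CommRing O] [CommRing O'] [CommRing k] (ψ : O →+* O')
    (φ : O' →+* k) {r s n : ℕ} (F : Pol O r s n) (V : Fin r → Fin 3 → k) (u : Fin s → k)
    (x : Fin n → k) : vl φ (MvPolynomial.map ψ F) V u x = vl (φ.comp ψ) F V u x := by
  unfold vl
  rw [eval₂_map]

theorem exists_ext {K L : Type} [Field K] [NumberField K] [Field L] [NumberField L] [Algebra K L]
    (σ : K →+* ℂ) : ∃ σ' : L →+* ℂ, σ'.comp (algebraMap K L) = σ := by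
  letI : Algebra K ℂ := σ.toAlgebra
  haveI : Algebra.IsAlgebraic K L := by
    haveI : FiniteDimensional K L := Module.Finite.of_restrictScalars_finite ℚ K L
    exact Algebra.IsAlgebraic.of_finite K L
  let e : L →ₐ[K] ℂ := IsAlgClosed.lift
  exact ⟨e.toRingHom, e.comp_algebraMap⟩

theorem dcExt (K : Type) [Field K] [NumberField K] (r n q m : ℕ)
    (a b : Fin r → ℤ) (hab : ∀ i, a i * b i = 0 ∧ (a i ≠ 0 ∨ b i ≠ 0))
    (G : Fin q → Pol0 (𝓞 K) r (n + 1)) (d' : Fin q → Fin r → ℕ) (hG : ∀ e, MHomog (G e) (d' e))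
    (F : Fin m → Pol0 (𝓞 K) r (n + 1)) (d : Fin m → Fin r → ℕ)
    (hd : ∀ e i, Even (d e i)) (hF : ∀ e, MHomog (F e) (d e)) (σ : K →+* ℂ)
    (hns : ∀ (V : Fin r → Fin 3 → ℂ), (∀ i, FD.OnE (a i) (b i) (V i)) →
      (∃ e, spc0 (toC σ) (G e) V ≠ 0) ∨
        ∃ e, ∀ g : MvPolynomial (Fin (n + 1)) ℂ, spc0 (toC σ) (F e) V ≠ g ^ 2)
    (L : Type) [Field L] [NumberField L] [Algebra K L] (N : ℕ)
    (ω : Module.Basis (Fin N) ℤ (𝓞 L)) :
    ∃ c : ℝ, 0 < c ∧ ∃ H₀ : ℕ, ∀ H : ℕ, H₀ ≤ H →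
    (((FibL K ω a b G F H).ncard : ℕ) : ℝ) ≤
      (2 * (H : ℝ) + 1) ^ ((n + 1) * N) * Real.exp (-c * (Real.log H / Real.log (Real.log H))) := by
  obtain ⟨σ', hσ'⟩ := exists_ext (L := L) σ
  set ψ : 𝓞 K →+* 𝓞 L := algebraMap (𝓞 K) (𝓞 L) with hψ
  have h1 : (toC σ').comp ψ = toC σ := by
    ext x
    have h2 : ((algebraMap (𝓞 K) (𝓞 L) x : 𝓞 L) : L) = algebraMap K L (x : K) := rfl
    show σ' ((algebraMap (𝓞 K) (𝓞 L) x : 𝓞 L) : L) = σ (x : K)
    rw [h2, ← hσ']
    rfl
  have h2 : (algebraMap (𝓞 L) L).comp ψ = toL K L := by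
    ext x
    rfl
  obtain ⟨c, hc, H₀, h⟩ := dcH L N ω r 0 n q m a b hab ⊥ ⟨∅, by simp⟩
    (fun e => MvPolynomial.map ψ (G e)) d' (fun e => (hG e).map ψ)
    (fun e => MvPolynomial.map ψ (F e)) d hd (fun e => (hF e).map ψ) σ' (by
      intro V u hV _
      rcases hns V hV with ⟨e, he⟩ | ⟨e, he⟩
      · left
        refine ⟨e, ?_⟩
        rw [spc_mapc, h1, spc_torus0]
        exact he
      · right
        refine ⟨e, fun g => ?_⟩
        rw [spc_mapc, h1, spc_torus0]
        exact he g)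
  refine ⟨c, hc, H₀, fun H hH => le_trans ?_ (h H hH)⟩
  have hfin : (FibH ω a b ⊥ (fun e => MvPolynomial.map ψ (G e))
      (fun e => MvPolynomial.map ψ (F e)) H).Finite := by
    refine Set.Finite.subset (Box (Fin (n + 1) × Fin N) H).finite_toSet ?_
    rintro c ⟨hc, _⟩
    rw [Finset.mem_coe]
    unfold Box
    rw [Fintype.mem_piFinset]
    intro s
    rw [Finset.mem_Icc]
    exact abs_le.1 (hc s)
  have hsub : FibL K ω a b G F H ⊆ FibH ω a b ⊥ (fun e => MvPolynomial.map ψ (G e))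
      (fun e => MvPolynomial.map ψ (F e)) H := by
    rintro c ⟨h3, V, w, hV, hG0, hw⟩
    refine ⟨h3, V, fun _ => 1, fun _ => 1, w, hV, fun _ => Subgroup.one_mem _,
      fun _ => Subgroup.one_mem _, fun e => ?_, fun i => ?_⟩
    · rw [vl_mapc, h2, vl_torus0]
      simpa using hG0 e
    · rw [vl_mapc, h2, vl_torus0]
      simpa using hw i
  exact_mod_cast Set.ncard_le_ncard hsub hfin

/-- Brody hyperbolicity of the projective variety
`X : G_e(P; x) = 0, w_i² = F_i(P; x)`, `P ∈ A(ℂ)`, `x ∈ ℙⁿ(ℂ)`: for every holomorphic map from `ℂ` to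
it, given by entire coordinates, the point `(P, x)` is constant -/
def BrodyHyperbolic {K : Type} [Field K] (σ : K →+* ℂ) {r n q m : ℕ} (a b : Fin r → ℤ)
    (G : Fin q → Pol0 (𝓞 K) r (n + 1)) (F : Fin m → Pol0 (𝓞 K) r (n + 1)) : Prop :=
  ∀ (V : Fin r → Fin 3 → ℂ → ℂ) (x : Fin (n + 1) → ℂ → ℂ) (w : Fin m → ℂ → ℂ),
    (∀ i j, Differentiable ℂ (V i j)) → (∀ k, Differentiable ℂ (x k)) →
    (∀ i, Differentiable ℂ (w i)) →
    (∀ z i, FD.OnE (a i) (b i) (fun j => V i j z)) → (∀ z, ∃ k, x k z ≠ 0) →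
    (∀ z e, vl0 (toC σ) (G e) (fun i j => V i j z) (fun k => x k z) = 0) →
    (∀ z i, w i z ^ 2 = vl0 (toC σ) (F i) (fun i j => V i j z) (fun k => x k z)) →
    (∀ z z' i, ∃ c : ℂ, ∀ j, V i j z = c * V i j z') ∧ ∀ z z', ∃ c : ℂ, ∀ k, x k z = c * x k z'

theorem hyp_cond {K : Type} [Field K] (σ : K →+* ℂ) {r n q m : ℕ} (hn : 1 ≤ n) (a b : Fin r → ℤ)
    (G : Fin q → Pol0 (𝓞 K) r (n + 1)) (F : Fin m → Pol0 (𝓞 K) r (n + 1))
    (h : BrodyHyperbolic σ a b G F) (V : Fin r → Fin 3 → ℂ)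
    (hV : ∀ i, FD.OnE (a i) (b i) (V i)) :
    (∃ e, spc0 (toC σ) (G e) V ≠ 0) ∨
      ∃ e, ∀ g : MvPolynomial (Fin (n + 1)) ℂ, spc0 (toC σ) (F e) V ≠ g ^ 2 := by
  by_contra hcon
  push Not at hcon
  obtain ⟨h1, h2⟩ := hcon
  choose g hg using h2
  let x : Fin (n + 1) → ℂ → ℂ := fun k z => if k = 0 then 1 else if k = ⟨1, by omega⟩ then z else 0
  have hx : ∀ k, Differentiable ℂ (x k) := by
    intro k
    by_cases h0 : k = 0
    · have : x k = fun _ => 1 := by funext z; simp [x, h0]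
      rw [this]
      exact differentiable_const _
    · by_cases h1 : k = ⟨1, by omega⟩
      · have : x k = fun z => z := by
          funext z
          simp only [x]
          rw [if_neg h0, if_pos h1]
        rw [this]
        exact differentiable_id
      · have : x k = fun _ => 0 := by
          funext z
          simp only [x]
          rw [if_neg h0, if_neg h1]
        rw [this]
        exact differentiable_const _
  have hw : ∀ i, Differentiable ℂ (fun z => eval (fun k => x k z) (g i)) := by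
    intro i
    have h3 : (fun z => eval (fun k => x k z) (g i)) =
        fun z => ∑ e ∈ (g i).support, coeff e (g i) * ∏ k, x k z ^ e k := by
      funext z
      rw [eval_eq']
    rw [h3]
    refine Differentiable.fun_sum fun e _ => ?_
    refine Differentiable.const_mul ?_ _
    refine Differentiable.fun_finsetProd fun k _ => ?_
    exact (hx k).pow _
  obtain ⟨_, h4⟩ := h (fun i j _ => V i j) x (fun i z => eval (fun k => x k z) (g i))
    (fun i j => differentiable_const _) hx hw (fun z i => hV i)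
    (fun z => ⟨0, by simp [x]⟩)
    (fun z e => by
      unfold vl0
      rw [vl_eq]
      have := h1 e
      unfold spc0 at this
      rw [this, map_zero])
    (fun z i => by
      unfold vl0
      rw [vl_eq]
      have := hg i
      unfold spc0 at this
      rw [this, map_pow])
  obtain ⟨c, hc⟩ := h4 0 1
  have h5 := hc 0
  have h6 := hc ⟨1, by omega⟩
  have h7 : (⟨1, by omega⟩ : Fin (n + 1)) ≠ 0 := by
    intro h
    have := congrArg Fin.val h
    simp at this
  simp only [x, if_true] at h5 h6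
  rw [if_neg h7, if_neg h7] at h6
  rw [mul_one] at h5 h6
  rw [← h5] at h6
  exact zero_ne_one h6

end Pool.Agent.W659.SA
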