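import Pool.Agent.W659.SA.Geo2

/-! Project SA (helper659): families of subvarieties; the inequality with given primes. -/

set_option autoImplicit false

namespace Pool.Agent.W659.SA

open MvPolynomial NumberField Pool.Agent.H901R3.MS WeierstrassCurve

/-- the conditions on a set `T` of primes and a number `L` -/
def GoodT (K : Type) [Field K] [NumberField K] (p₀ : ℕ) (T : Finset ℕ) (L : ℕ) : Prop :=
  1 ≤ L ∧ ∀ p ∈ T, p.Prime ∧ p₀ ≤ p ∧ 12 ∣ p + 1 ∧ FK.GoodP K p ∧ 2 * (p + 1) ∣ L ∧ p ^ 2 - 1 ∣ L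

/-- the points over which there is a point of the family -/
def Sol {K : Type} [Field K] [NumberField K] {N : ℕ} (ω : Module.Basis (Fin N) ℤ (𝓞 K))
    {r s B q : ℕ} {n : Fin B → ℕ} (a b : Fin r → ℤ) (Γ : Subgroup Kˣ)
    (G : (j : Fin B) → Fin q → Pol (𝓞 K) r s (n j)) (H : ℕ) :
    Set ((j : Fin B) → Fin (n j) × Fin N → ℤ) :=
  {c | (∀ j i, |c j i| ≤ H) ∧ ∃ (V : Fin r → Fin 3 → K) (u : Fin s → Kˣ),
    (∀ i, FD.OnE (a i) (b i) (V i)) ∧ (∀ l, u l ∈ Γ) ∧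
      ∀ j e, vl (algebraMap (𝓞 K) K) (G j e) V (fun l => ((u l : Kˣ) : K))
        (fun i => ((vec ω (c j) i : 𝓞 K) : K)) = 0}

/-- a set of equations, one for each block, with exponents in `Λ j` -/
def Cover {K : Type} [Field K] [NumberField K] {N : ℕ} (ω : Module.Basis (Fin N) ℤ (𝓞 K))
    {B : ℕ} {n : Fin B → ℕ} (Λ : (j : Fin B) → Finset (Fin (n j) →₀ ℕ))
    (S : Set ((j : Fin B) → Fin (n j) × Fin N → ℤ))
    (FF : Set ((j : Fin B) → MvPolynomial (Fin (n j)) K)) : Prop :=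
  (∀ f ∈ FF, ∀ j, f j ≠ 0 ∧ (f j).support ⊆ Λ j) ∧
    ∀ c ∈ S, ∃ f ∈ FF, ∀ j, eval (fun i => ((vec ω (c j) i : 𝓞 K) : K)) (f j) = 0

/-- the inequality with given primes -/
def SieveHS : Prop := ∀ (K : Type) [Field K] [NumberField K] (N : ℕ)
  (ω : Module.Basis (Fin N) ℤ (𝓞 K)) (r s : ℕ) (a b : Fin r → ℤ),
  (∀ i, a i * b i = 0 ∧ (a i ≠ 0 ∨ b i ≠ 0)) → ∀ Γ : Subgroup Kˣ, Γ.FG →
  ∀ (B : ℕ) (n : Fin B → ℕ) (q : ℕ) (G : (j : Fin B) → Fin q → Pol (𝓞 K) r s (n j))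
    (d : (j : Fin B) → Fin q → Fin r → ℕ) (Λ : (j : Fin B) → Finset (Fin (n j) →₀ ℕ)),
  (∀ j e, MHomog (G j e) (d j e)) → (∀ j e, XSupp (G j e) (Λ j)) → ∀ σ : K →+* ℂ,
  (∀ (V : Fin r → Fin 3 → ℂ) (u : Fin s → ℂ), (∀ i, FD.OnE (a i) (b i) (V i)) → (∀ l, u l ≠ 0) →
    ∀ j, ∃ e, spc (toC σ) (G j e) V u ≠ 0) →
  ∃ p₀ R C₀ : ℕ, ∀ (T : Finset ℕ) (L : ℕ), GoodT K p₀ T L → ∀ H : ℕ,
    (C₀ * (H + 1)) ^ C₀ < ∏ p ∈ T, p →
    ∃ FF : Finset ((j : Fin B) → MvPolynomial (Fin (n j)) K), FF.card ≤ L ^ R ∧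
      Cover ω Λ (Sol ω a b Γ G H) FF

theorem sieveHS (hCL : ClassesS) (hDET : S_DET) (hTRZ : S_TRZ) : SieveHS := by
  classical
  intro K _ _ N ω r s a b hab Γ hΓ B n q G d Λ hG hΛ σ hns
  obtain ⟨p₀, R, hcl⟩ := hCL K r s a b hab Γ hΓ
  have h1 : ∀ j, ∃ p₁ : ℕ, ∀ p : ℕ, p.Prime → p₁ ≤ p → ∀ (k : Type) [Field k] [CharP k p]
      (φ : 𝓞 K →+* k) (V : Fin r → Fin 3 → k) (u : Fin s → k),
      (∀ i, FD.OnE (a i) (b i) (V i)) → (∀ l, u l ≠ 0) → ∃ e, spc φ (G j e) V u ≠ 0 := fun j =>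
    hTRZ K r s (n j) a b (Fin q) (G j) σ (fun V u hV hu => hns V u hV hu j)
  choose p₁ hp₁ using h1
  have h2 : ∀ j, ∃ C₀ : ℕ, 1 ≤ C₀ ∧ ∀ (H : ℕ) (T : Finset ℕ), (∀ p ∈ T, p.Prime) →
    (C₀ * (H + 1)) ^ C₀ < ∏ p ∈ T, p → ∀ S : Set (Fin (n j) × Fin N → ℤ),
    (∀ c ∈ S, ∀ i, |c i| ≤ H) →
    (∀ p ∈ T, ∃ (k : Type) (_ : Field k) (_ : CharP k p) (φ : 𝓞 K →+* k)
      (g : MvPolynomial (Fin (n j)) k), g ≠ 0 ∧ g.support ⊆ Λ j ∧
        ∀ c ∈ S, eval (fun i => φ (vec ω c i)) g = 0) →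
    ∃ Γ : MvPolynomial (Fin (n j)) K, Γ ≠ 0 ∧ Γ.support ⊆ Λ j ∧
      ∀ c ∈ S, eval (fun i => ((vec ω c i : 𝓞 K) : K)) Γ = 0 := fun j => hDET K N ω (n j) (Λ j)
  choose C hC1 hC using h2
  refine ⟨p₀ + ∑ j, p₁ j, R, ∑ j, C j, ?_⟩
  intro T L hT H hH
  obtain ⟨hL, hT⟩ := hT
  obtain ⟨Q, _, hQ, cls, hcls⟩ := hcl L hL
  have hCj : ∀ j, (C j * (H + 1)) ^ C j < ∏ p ∈ T, p := by
    intro j
    refine lt_of_le_of_lt ?_ hH
    have h3 : C j ≤ ∑ j, C j := Finset.single_le_sum (f := C) (fun _ _ => Nat.zero_le _)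
      (Finset.mem_univ j)
    have h4 : 1 ≤ (∑ j, C j) * (H + 1) := Nat.mul_pos (by have := hC1 j; omega) (by omega)
    exact (Nat.pow_le_pow_left (Nat.mul_le_mul_right _ h3) _).trans (Nat.pow_le_pow_right h4 h3)
  -- the equations of a class
  have key : ∀ (x : Q) (j : Fin B), ∃ f : MvPolynomial (Fin (n j)) K,
      f ≠ 0 ∧ f.support ⊆ Λ j ∧ ∀ c : (j : Fin B) → Fin (n j) × Fin N → ℤ,
        (∀ j i, |c j i| ≤ H) → (∃ (V : Fin r → Fin 3 → K) (u : Fin s → Kˣ),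
        (∀ i, FD.OnE (a i) (b i) (V i)) ∧ (∀ l, u l ∈ Γ) ∧ cls V u = x ∧
        ∀ e, vl (algebraMap (𝓞 K) K) (G j e) V (fun l => ((u l : Kˣ) : K))
        (fun i => ((vec ω (c j) i : 𝓞 K) : K)) = 0) →
        eval (fun i => ((vec ω (c j) i : 𝓞 K) : K)) f = 0 := by
    intro x j
    by_cases hne : ∃ (V : Fin r → Fin 3 → K) (u : Fin s → Kˣ),
        (∀ i, FD.OnE (a i) (b i) (V i)) ∧ (∀ l, u l ∈ Γ) ∧ cls V u = x
    · obtain ⟨V₀, u₀, hV₀, hu₀, hx₀⟩ := hne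
      obtain ⟨f, hf0, hfΛ, hf⟩ := hC j H T (fun p hp => (hT p hp).1) (hCj j)
        {c | (∀ i, |c i| ≤ H) ∧ ∃ (V : Fin r → Fin 3 → K) (u : Fin s → Kˣ),
          (∀ i, FD.OnE (a i) (b i) (V i)) ∧ (∀ l, u l ∈ Γ) ∧ cls V u = x ∧
          ∀ e, vl (algebraMap (𝓞 K) K) (G j e) V (fun l => ((u l : Kˣ) : K))
            (fun i => ((vec ω c i : 𝓞 K) : K)) = 0} (fun c hc => hc.1) (by
          intro p hp
          obtain ⟨hpp, hp0, h12, ⟨k, _, _, hcard, φ, hφ⟩, hL1, hL2⟩ := hT p hp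
          haveI : CharP k p := charP_of_card hpp hcard
          obtain ⟨V', u', hVu⟩ := hcls p hpp (by omega) h12 hL1 hL2 k hcard φ hφ
          have h3 := (hVu V₀ u₀ hV₀ hu₀).1
          rw [hx₀] at h3
          have h4 : p₁ j ≤ ∑ j, p₁ j := Finset.single_le_sum (f := p₁) (fun _ _ => Nat.zero_le _)
            (Finset.mem_univ j)
          obtain ⟨e, he⟩ := hp₁ j p hpp (by omega) k φ (V' x) (u' x) h3.1 h3.2
          refine ⟨k, inferInstance, inferInstance, φ, spc φ (G j e) (V' x) (u' x), he,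
            spc_support φ _ _ (hΛ j e) _ _, ?_⟩
          rintro c ⟨_, V, u, hV, hu, hx, hc⟩
          obtain ⟨_, v, z, hv, hz, hval⟩ := hVu V u hV hu
          have h5 := (hval (n j) (G j e) (d j e) (hG j e) (vec ω c)).2
          rw [hc e, mul_zero, Place.r_zero, hx, vl_eq] at h5
          exact h5.symm)
      exact ⟨f, hf0, hfΛ, fun c hc h => hf (c j) ⟨hc j, h⟩⟩
    · -- an empty class
      have hT0 : T.Nonempty := by
        rw [Finset.nonempty_iff_ne_empty]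
        intro h
        have h3 := hCj j
        rw [h, Finset.prod_empty] at h3
        have h4 : 1 ≤ (C j * (H + 1)) ^ C j :=
          Nat.one_le_pow _ _ (Nat.mul_pos (hC1 j) (by omega))
        omega
      obtain ⟨p, hp⟩ := hT0
      -- some point exists, to see that `Λ j` is not empty
      obtain ⟨f, hf0, hfΛ, hf⟩ := hC j H T (fun p hp => (hT p hp).1) (hCj j) ∅ (by simp) (by
          intro p hp
          obtain ⟨hpp, hp0, h12, ⟨k, _, _, hcard, φ, hφ⟩, hL1, hL2⟩ := hT p hp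
          haveI : CharP k p := charP_of_card hpp hcard
          have h4 : p₁ j ≤ ∑ j, p₁ j := Finset.single_le_sum (f := p₁) (fun _ _ => Nat.zero_le _)
            (Finset.mem_univ j)
          have hO : ∀ i, FD.OnE (K := k) (a i) (b i) ![0, 1, 0] := by
            intro i
            refine ⟨fun h => ?_, by simp⟩
            have := congrFun h 1
            simp at this
          obtain ⟨e, he⟩ := hp₁ j p hpp (by omega) k φ (fun _ => ![0, 1, 0]) (fun _ => 1) hO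
            (fun _ => one_ne_zero)
          exact ⟨k, inferInstance, inferInstance, φ, _, he,
            spc_support φ _ _ (hΛ j e) _ _, by simp⟩)
      exact ⟨f, hf0, hfΛ, fun c _ ⟨V, u, hV, hu, hx, _⟩ => absurd ⟨V, u, hV, hu, hx⟩ hne⟩
  choose f hf0 hfΛ hf using key
  refine ⟨Finset.univ.image fun x : Q => fun j => f x j, ?_, ?_, ?_⟩
  · exact (Finset.card_image_le).trans hQ
  · intro g hg j
    rw [Finset.mem_coe, Finset.mem_image] at hg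
    obtain ⟨x, _, rfl⟩ := hg
    exact ⟨hf0 x j, hfΛ x j⟩
  · rintro c ⟨hc1, V, u, hV, hu, hc⟩
    refine ⟨fun j => f (cls V u) j, ?_, fun j => ?_⟩
    · rw [Finset.mem_coe, Finset.mem_image]
      exact ⟨cls V u, Finset.mem_univ _, rfl⟩
    · exact hf (cls V u) j c hc1 ⟨V, u, hV, hu, rfl, hc j⟩

end Pool.Agent.W659.SA
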