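import Pool.Agent.H901R3.MS.P_Z1K
import Pool.Agent.W659.SA.HS

/-! Project SA (helper659): choice of the primes; the theorem on families of subvarieties. -/

set_option autoImplicit false

namespace Pool.Agent.W659.SA

open MvPolynomial NumberField Pool.Agent.H901R3.MS WeierstrassCurve

/-- the choice of the primes -/
def PrimesS : Prop := ∀ (K : Type) [Field K] [NumberField K] (p₀ R C₀ : ℕ),
  ∃ τ : ℝ, 0 < τ ∧ τ < 1 ∧ ∃ H₀ : ℕ, 3 ≤ H₀ ∧ ∀ H : ℕ, H₀ ≤ H → ∃ (T : Finset ℕ) (L : ℕ),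
    GoodT K p₀ T L ∧ (C₀ * (H + 1)) ^ C₀ < ∏ p ∈ T, p ∧
      (L : ℝ) ^ R ≤ Real.exp ((Real.log H) ^ τ)

theorem primesS (hHOM : FK.S_HOM) (hSP : S_SP2) (hLY : LY) (hPRL : S_PRL) (hCH : S_CH)
    (hASH : S_ASH) : PrimesS := by
  classical
  intro K _ _ p₀ R C₀
  obtain ⟨M, _, _, hM1, hM3, hM⟩ := hHOM K
  obtain ⟨τ, hτ0, hτ1, κ, hκ, Y, hY⟩ := hSP M True True (fun _ => hM1) (fun _ => hM3)
  obtain ⟨Y₂, hY₂⟩ := hPRL (κ / 2) (by positivity)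
  set M' : ℕ := p₀ + 2 with hM'
  set N' : ℕ := ⌈(4 * (M' : ℝ) / κ) ^ 2⌉₊ with hN'
  obtain ⟨C₂, hC₂, H₁, hH₁, hch⟩ := hCH C₀ (max Y (max 3 (max N' Y₂))) (κ / 2) (by positivity)
  obtain ⟨H₂, hH₂, hash⟩ := hASH R C₂ τ hC₂ hτ0 hτ1
  refine ⟨(1 + τ) / 2, by linarith, by linarith, max H₁ H₂, le_max_of_le_left hH₁, ?_⟩
  intro H hH
  obtain ⟨hy0, hbig⟩ := hch H ((le_max_left _ _).trans hH)
  set y : ℕ := ⌊C₂ * Real.log H⌋₊ with hy
  have hyY : Y ≤ y := (le_max_left _ _).trans hy0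
  have hy3 : 3 ≤ y := ((le_max_left _ _).trans (le_max_right _ _)).trans hy0
  have hyN : N' ≤ y := (((le_max_left _ _).trans (le_max_right _ _)).trans (le_max_right _ _)).trans
    hy0
  have hyY2 : Y₂ ≤ y := (((le_max_right _ _).trans (le_max_right _ _)).trans
    (le_max_right _ _)).trans hy0
  have hyC : (y : ℝ) ≤ C₂ * Real.log H := by
    apply Nat.floor_le
    have : 0 ≤ Real.log H := Real.log_natCast_nonneg H
    positivity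
  set T : Finset ℕ := ((DegP M True True y \ RoughP τ y) \ RoughM τ y).filter (fun p => M' ≤ p)
    with hT
  have hmemT : ∀ p ∈ T, (1 ≤ p ∧ p ≤ y) ∧ (p.Prime ∧ CondP True True p ∧
      Nonempty (𝓞 M →+* ZMod p)) ∧
      (∀ q : ℕ, q.Prime → q ∣ p + 1 → q ≤ ⌊(y : ℝ) ^ τ⌋₊) ∧
      (∀ q : ℕ, q.Prime → q ∣ p - 1 → q ≤ ⌊(y : ℝ) ^ τ⌋₊) ∧ M' ≤ p := by
    intro p hp
    rw [hT, Finset.mem_filter, Finset.mem_sdiff, Finset.mem_sdiff] at hp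
    obtain ⟨⟨⟨h1, h3⟩, h4⟩, h2⟩ := hp
    unfold DegP at h1
    rw [Finset.mem_filter, Finset.mem_Icc] at h1
    refine ⟨h1.1, h1.2, ?_, ?_, h2⟩
    · intro q hq hqp
      by_contra hcon
      apply h3
      unfold RoughP
      rw [Finset.mem_filter, Finset.mem_Icc]
      exact ⟨h1.1, h1.2.1, q, hq, hqp, not_le.1 hcon⟩
    · intro q hq hqp
      by_contra hcon
      apply h4
      unfold RoughM
      rw [Finset.mem_filter, Finset.mem_Icc]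
      exact ⟨h1.1, h1.2.1, q, hq, hqp, not_le.1 hcon⟩
  -- cardinality
  have hcard : ((((DegP M True True y \ RoughP τ y) \ RoughM τ y)).card : ℝ) ≤
      (T.card : ℝ) + M' := by
    have h1 : ((DegP M True True y \ RoughP τ y) \ RoughM τ y) ⊆ T ∪ Finset.range M' := by
      intro p hp
      rw [Finset.mem_union]
      by_cases hpM : M' ≤ p
      · left
        rw [hT, Finset.mem_filter]
        exact ⟨hp, hpM⟩
      · right
        rw [Finset.mem_range]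
        omega
    have h2 := (Finset.card_le_card h1).trans (Finset.card_union_le _ _)
    rw [Finset.card_range] at h2
    exact_mod_cast h2
  have hκy := hY y hyY
  have hyr3 : (3 : ℝ) ≤ (y : ℝ) := by exact_mod_cast hy3
  have hMy : (M' : ℝ) ≤ κ / 2 * (y / Real.log y) := by
    have h1 := W_Z1K.div_log_ge hyr3
    have h2 : 4 * (M' : ℝ) / κ ≤ Real.sqrt y := by
      apply Real.le_sqrt_of_sq_le
      have h3 : (4 * (M' : ℝ) / κ) ^ 2 ≤ (N' : ℝ) := Nat.le_ceil _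
      have h4 : (N' : ℝ) ≤ (y : ℝ) := by exact_mod_cast hyN
      exact h3.trans h4
    have h5 : 4 * (M' : ℝ) ≤ Real.sqrt y * κ := by
      rwa [div_le_iff₀ hκ] at h2
    have h6 : κ / 2 * (Real.sqrt y / 2) ≤ κ / 2 * (y / Real.log y) :=
      mul_le_mul_of_nonneg_left h1 (by positivity)
    nlinarith
  have hTcard : κ / 2 * (y / Real.log y) ≤ (T.card : ℝ) := by
    have h1 : κ * (y / Real.log y) = κ / 2 * (y / Real.log y) + κ / 2 * (y / Real.log y) := by ring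
    linarith
  have hprod := hY₂ y hyY2 T (fun p hp => ⟨(hmemT p hp).2.1.1.two_le, (hmemT p hp).1.2⟩) hTcard
  -- the integer L
  obtain ⟨L, hL1, hL2, hL3⟩ := hLY y ⌊(y : ℝ) ^ τ⌋₊
  refine ⟨T, 2 * L ^ 2, ⟨by have := Nat.pow_pos (n := 2) hL1; omega, ?_⟩, ?_, ?_⟩
  · intro p hpT
    obtain ⟨h1, ⟨h2, h3, h6⟩, h4, h4', h5⟩ := hmemT p hpT
    haveI : Fact p.Prime := ⟨h2⟩
    have h7 := h3.1 trivial
    have h8 := h3.2 trivial
    have h9 : p + 1 ∣ L := hL3 (p + 1) (by omega) (by omega) h4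
    have h10 : p - 1 ∣ L := hL3 (p - 1) (by omega) (by omega) h4'
    refine ⟨h2, by omega, by omega, hM p h7 h6, ?_, ?_⟩
    · exact Nat.mul_dvd_mul_left 2 (h9.trans (dvd_pow_self _ two_ne_zero))
    · have h11 : p ^ 2 - 1 = (p + 1) * (p - 1) := by
        have := Nat.sq_sub_sq p 1
        simpa using this
      rw [h11, pow_two]
      exact (mul_dvd_mul h9 h10).trans (dvd_mul_left _ _)
  · have h1 := lt_of_lt_of_le hbig hprod
    have h2 : (((C₀ * (H + 1)) ^ C₀ : ℕ) : ℝ) < ((∏ p ∈ T, p : ℕ) : ℝ) := by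
      push_cast
      exact h1
    exact_mod_cast h2
  · have h1 : (((2 * L ^ 2 : ℕ)) : ℝ) ≤ 2 * ((y : ℝ) + 1) ^ (2 * ⌊(y : ℝ) ^ τ⌋₊) := by
      have h2 : (L : ℝ) ≤ ((y : ℝ) + 1) ^ ⌊(y : ℝ) ^ τ⌋₊ := by exact_mod_cast hL2
      push_cast
      rw [mul_comm 2 ⌊(y : ℝ) ^ τ⌋₊, pow_mul]
      have h3 : (0 : ℝ) ≤ (L : ℝ) := by positivity
      have h4 := pow_le_pow_left₀ h3 h2 2
      linarith
    exact (pow_le_pow_left₀ (by positivity) h1 R).trans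
      (hash H ((le_max_right _ _).trans hH) y hyC)

/-- the theorem on families of subvarieties -/
def MainHS : Prop := ∀ (K : Type) [Field K] [NumberField K] (N : ℕ)
  (ω : Module.Basis (Fin N) ℤ (𝓞 K)) (r s : ℕ) (a b : Fin r → ℤ),
  (∀ i, a i * b i = 0 ∧ (a i ≠ 0 ∨ b i ≠ 0)) → ∀ Γ : Subgroup Kˣ, Γ.FG →
  ∀ (B : ℕ) (n : Fin B → ℕ) (q : ℕ) (G : (j : Fin B) → Fin q → Pol (𝓞 K) r s (n j))
    (d : (j : Fin B) → Fin q → Fin r → ℕ) (Λ : (j : Fin B) → Finset (Fin (n j) →₀ ℕ)),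
  (∀ j e, MHomog (G j e) (d j e)) → (∀ j e, XSupp (G j e) (Λ j)) → ∀ σ : K →+* ℂ,
  (∀ (V : Fin r → Fin 3 → ℂ) (u : Fin s → ℂ), (∀ i, FD.OnE (a i) (b i) (V i)) → (∀ l, u l ≠ 0) →
    ∀ j, ∃ e, spc (toC σ) (G j e) V u ≠ 0) →
  ∃ τ : ℝ, 0 < τ ∧ τ < 1 ∧ ∃ H₀ : ℕ, 3 ≤ H₀ ∧ ∀ H : ℕ, H₀ ≤ H →
    ∃ FF : Finset ((j : Fin B) → MvPolynomial (Fin (n j)) K),
      (FF.card : ℝ) ≤ Real.exp ((Real.log H) ^ τ) ∧ Cover ω Λ (Sol ω a b Γ G H) FF

theorem mainHS (hS : SieveHS) (hP : PrimesS) : MainHS := by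
  intro K _ _ N ω r s a b hab Γ hΓ B n q G d Λ hG hΛ σ hns
  obtain ⟨p₀, R, C₀, h⟩ := hS K N ω r s a b hab Γ hΓ B n q G d Λ hG hΛ σ hns
  obtain ⟨τ, hτ0, hτ1, H₀, hH3, hH₀⟩ := hP K p₀ R C₀
  refine ⟨τ, hτ0, hτ1, H₀, hH3, fun H hH => ?_⟩
  obtain ⟨T, L, hT, hC, hL⟩ := hH₀ H hH
  obtain ⟨FF, hFF, hcov⟩ := h T L hT H hC
  refine ⟨FF, le_trans ?_ hL, hcov⟩
  exact_mod_cast hFF

end Pool.Agent.W659.SA
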