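import Pool.Agent.W659.SA.DCM

/-! Project SA (helper659): covers of closed subvarieties of `G × 𝔸ⁿ`. -/

set_option autoImplicit false

namespace Pool.Agent.W659.SA

open MvPolynomial NumberField Pool.Agent.H901R3.MS

theorem MHomog.mul {O : Type} [CommRing O] {r s n : ℕ} {F G : Pol O r s n} {d e : Fin r → ℕ}
    (hF : MHomog F d) (hG : MHomog G e) : MHomog (F * G) (fun i => d i + e i) := by
  classical
  intro m hm i
  have h1 := support_mul F G hm
  rw [Finset.mem_add] at h1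
  obtain ⟨x, hx, y, hy, rfl⟩ := h1
  show _ = d i + e i
  rw [← hF x hx i, ← hG y hy i, ← Finset.sum_add_distrib]
  rfl

theorem MHomog.var {O : Type} [CommRing O] {r s n : ℕ} (k : Fin n) :
    MHomog (X (Sum.inr (Sum.inr k)) : Pol O r s n) (fun _ => 0) := by
  classical
  intro m hm i
  have h1 := support_monomial_subset hm
  rw [Finset.mem_singleton] at h1
  rw [h1]
  simp

theorem spc_mul {O A : Type} [CommRing O] [CommRing A] (φ : O →+* A) {r s n : ℕ}
    (F G : Pol O r s n) (V : Fin r → Fin 3 → A) (u : Fin s → A) :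
    spc φ (F * G) V u = spc φ F V u * spc φ G V u := eval₂_mul _ _

theorem spc_var {O A : Type} [CommRing O] [CommRing A] (φ : O →+* A) {r s n : ℕ}
    (V : Fin r → Fin 3 → A) (u : Fin s → A) (k : Fin n) :
    spc φ (X (Sum.inr (Sum.inr k)) : Pol O r s n) V u = X k := by
  unfold spc
  rw [eval₂_X]
  rfl

theorem vl_mul {O A : Type} [CommRing O] [CommRing A] (φ : O →+* A) {r s n : ℕ}
    (F G : Pol O r s n) (V : Fin r → Fin 3 → A) (u : Fin s → A) (t : Fin n → A) :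
    vl φ (F * G) V u t = vl φ F V u t * vl φ G V u t := eval₂_mul _ _

theorem odd_ne {n : ℕ} (k : Fin n) (h g : MvPolynomial (Fin n) ℂ) (hh : h ≠ 0) :
    X k * (h * h) ≠ g ^ 2 := by
  intro he
  have hX : (X k : MvPolynomial (Fin n) ℂ) ≠ 0 := X_ne_zero k
  have hg : g ≠ 0 := by
    rintro rfl
    rw [zero_pow two_ne_zero] at he
    exact (mul_ne_zero hX (mul_ne_zero hh hh)) he
  have h1 := congrArg totalDegree he
  rw [totalDegree_mul_of_isDomain hX (mul_ne_zero hh hh), totalDegree_mul_of_isDomain hh hh,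
    pow_two, totalDegree_mul_of_isDomain hg hg, totalDegree_X] at h1
  omega

/-- the coefficient vectors of the `m ∈ (𝓞 K)ⁿ` in a box such that for some `z_k ∈ Γ` and
`t = (z_1 m_1, …, z_n m_n)` there is a point `(P, u, t, w)` with `P ∈ A(K)`, torus coordinates
`u_l ∈ Γ`, `G_e(P, u; t) = 0` for all `e` and `w_i² = F_i(P, u; t)` for all `i` -/
def FibH {K : Type} [Field K] [NumberField K] {N : ℕ} (ω : Module.Basis (Fin N) ℤ (𝓞 K))
    {r s n q m : ℕ} (a b : Fin r → ℤ) (Γ : Subgroup Kˣ) (G : Fin q → Pol (𝓞 K) r s n)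
    (F : Fin m → Pol (𝓞 K) r s n) (H : ℕ) : Set (Fin n × Fin N → ℤ) :=
  {c | (∀ i, |c i| ≤ H) ∧ ∃ (V : Fin r → Fin 3 → K) (u : Fin s → Kˣ) (z : Fin n → Kˣ)
    (w : Fin m → K), (∀ i, FD.OnE (a i) (b i) (V i)) ∧ (∀ l, u l ∈ Γ) ∧ (∀ k, z k ∈ Γ) ∧
      (∀ e, vl (algebraMap (𝓞 K) K) (G e) V (fun l => ((u l : Kˣ) : K))
        (fun k => ((z k : Kˣ) : K) * ((vec ω c k : 𝓞 K) : K)) = 0) ∧
      ∀ i, w i ^ 2 = vl (algebraMap (𝓞 K) K) (F i) V (fun l => ((u l : Kˣ) : K))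
        (fun k => ((z k : Kˣ) : K) * ((vec ω c k : 𝓞 K) : K))}

theorem dcH (K : Type) [Field K] [NumberField K] (N : ℕ) (ω : Module.Basis (Fin N) ℤ (𝓞 K))
    (r s n q m : ℕ) (a b : Fin r → ℤ) (hab : ∀ i, a i * b i = 0 ∧ (a i ≠ 0 ∨ b i ≠ 0))
    (Γ : Subgroup Kˣ) (hΓ : Γ.FG) (G : Fin q → Pol (𝓞 K) r s (n + 1)) (d' : Fin q → Fin r → ℕ)
    (hG : ∀ e, MHomog (G e) (d' e))
    (F : Fin m → Pol (𝓞 K) r s (n + 1)) (d : Fin m → Fin r → ℕ)
    (hd : ∀ e i, Even (d e i)) (hF : ∀ e, MHomog (F e) (d e)) (σ : K →+* ℂ)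
    (hns : ∀ (V : Fin r → Fin 3 → ℂ) (u : Fin s → ℂ), (∀ i, FD.OnE (a i) (b i) (V i)) →
      (∀ l, u l ≠ 0) → (∃ e, spc (toC σ) (G e) V u ≠ 0) ∨
        ∃ e, ∀ g : MvPolynomial (Fin (n + 1)) ℂ, spc (toC σ) (F e) V u ≠ g ^ 2) :
    ∃ c : ℝ, 0 < c ∧ ∃ H₀ : ℕ, ∀ H : ℕ, H₀ ≤ H →
    (((FibH ω a b Γ G F H).ncard : ℕ) : ℝ) ≤
      (2 * (H : ℝ) + 1) ^ ((n + 1) * N) * Real.exp (-c * (Real.log H / Real.log (Real.log H))) := by
  obtain ⟨c, hc, H₀, h⟩ := dcMZ K N ω r s (n + 1) (q + m) (by omega) a b hab Γ hΓ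
    (Fin.append (fun e => X (Sum.inr (Sum.inr 0)) * (G e * G e)) F)
    (Fin.append (fun e i => 0 + (d' e i + d' e i)) d)
    (fun e => by
      refine Fin.addCases (fun e => ?_) (fun e => ?_) e
      · intro i
        rw [Fin.append_left]
        exact ⟨d' e i, by omega⟩
      · intro i
        rw [Fin.append_right]
        exact hd e i)
    (fun e => by
      refine Fin.addCases (fun e => ?_) (fun e => ?_) e
      · rw [Fin.append_left, Fin.append_left]
        exact (MHomog.var 0).mul ((hG e).mul (hG e))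
      · rw [Fin.append_right, Fin.append_right]
        exact hF e) σ (by
      intro V u hV hu
      rcases hns V u hV hu with ⟨e, he⟩ | ⟨e, he⟩
      · refine ⟨Fin.castAdd m e, fun g => ?_⟩
        rw [Fin.append_left, spc_mul, spc_mul, spc_var]
        exact odd_ne 0 _ g he
      · refine ⟨Fin.natAdd q e, fun g => ?_⟩
        rw [Fin.append_right]
        exact he g)
  refine ⟨c, hc, H₀, fun H hH => le_trans ?_ (h H hH)⟩
  have hfin : (FibM ω a b Γ (Fin.append (fun e => X (Sum.inr (Sum.inr 0)) * (G e * G e)) F)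
      H).Finite := by
    refine Set.Finite.subset (Box (Fin (n + 1) × Fin N) H).finite_toSet ?_
    rintro c ⟨hc, _⟩
    rw [Finset.mem_coe]
    unfold Box
    rw [Fintype.mem_piFinset]
    intro s
    rw [Finset.mem_Icc]
    exact abs_le.1 (hc s)
  have hsub : FibH ω a b Γ G F H ⊆
      FibM ω a b Γ (Fin.append (fun e => X (Sum.inr (Sum.inr 0)) * (G e * G e)) F) H := by
    rintro c ⟨h1, V, u, z, w, hV, hu, hz, hG0, hw⟩
    refine ⟨h1, V, u, z, Fin.append (fun _ => 0) w, hV, hu, hz, fun e => ?_⟩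
    refine Fin.addCases (fun e => ?_) (fun e => ?_) e
    · rw [Fin.append_left, Fin.append_left, vl_mul, vl_mul, hG0 e]
      ring
    · rw [Fin.append_right, Fin.append_right]
      exact hw e
  exact_mod_cast Set.ncard_le_ncard hsub hfin

end Pool.Agent.W659.SA
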