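import Pool.Agent.W659.SA.Ext

/-! Project SA (helper659): closed subvarieties of `A × ℙⁿ` over a number field, points over all
finite extensions. -/

set_option autoImplicit false

namespace Pool.Agent.W659.SA

open MvPolynomial NumberField Pool.Agent.H901R3.MS

theorem XHomog.mul {O : Type} [CommRing O] {r s n : ℕ} {F G : Pol O r s n} {d e : ℕ}
    (hF : XHomog F d) (hG : XHomog G e) : XHomog (F * G) (d + e) := by
  classical
  intro m hm
  have h1 := support_mul F G hm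
  rw [Finset.mem_add] at h1
  obtain ⟨x, hx, y, hy, rfl⟩ := h1
  rw [← hF x hx, ← hG y hy, ← Finset.sum_add_distrib]
  rfl

theorem XHomog.varpow {O : Type} [CommRing O] {r s n : ℕ} (k : Fin n) (j : ℕ) :
    XHomog (X (Sum.inr (Sum.inr k)) ^ j : Pol O r s n) j := by
  classical
  intro m hm
  rw [X_pow_eq_monomial] at hm
  have h1 := support_monomial_subset hm
  rw [Finset.mem_singleton] at h1
  rw [h1]
  simp [Finsupp.single_apply, Finset.sum_ite_eq]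

theorem MHomog.varpow {O : Type} [CommRing O] {r s n : ℕ} (k : Fin n) (j : ℕ) :
    MHomog (X (Sum.inr (Sum.inr k)) ^ j : Pol O r s n) (fun _ => 0) := by
  classical
  intro m hm i
  rw [X_pow_eq_monomial] at hm
  have h1 := support_monomial_subset hm
  rw [Finset.mem_singleton] at h1
  rw [h1]
  simp

theorem spc_varpow {O A : Type} [CommRing O] [CommRing A] (φ : O →+* A) {r s n : ℕ}
    (V : Fin r → Fin 3 → A) (u : Fin s → A) (k : Fin n) (j : ℕ) :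
    spc φ (X (Sum.inr (Sum.inr k)) ^ j : Pol O r s n) V u = X k ^ j := by
  unfold spc
  rw [eval₂_pow, eval₂_X]
  rfl

/-- the coefficient vectors of the `x ∈ (𝓞 L)ⁿ` in a box for which there is `P ∈ A(L)` with
`G_e(P; x) = 0` for all `e` -/
def SolL (K : Type) [Field K] {L : Type} [Field L] [NumberField L] [Algebra K L] {N : ℕ}
    (ω : Module.Basis (Fin N) ℤ (𝓞 L)) {r n q : ℕ} (a b : Fin r → ℤ)
    (G : Fin q → Pol0 (𝓞 K) r n) (H : ℕ) : Set (Fin n × Fin N → ℤ) :=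
  {c | (∀ i, |c i| ≤ H) ∧ ∃ V : Fin r → Fin 3 → L, (∀ i, FD.OnE (a i) (b i) (V i)) ∧
      ∀ e, vl0 (toL K L) (G e) V (fun i => ((vec ω c i : 𝓞 L) : L)) = 0}

theorem hsExt (K : Type) [Field K] [NumberField K] (r n q : ℕ)
    (a b : Fin r → ℤ) (hab : ∀ i, a i * b i = 0 ∧ (a i ≠ 0 ∨ b i ≠ 0))
    (G : Fin q → Pol0 (𝓞 K) r (n + 1)) (d : Fin q → Fin r → ℕ) (k : Fin q → ℕ) (k' : ℕ)
    (hk : ∀ e, k e ≤ k') (hG : ∀ e, MHomog (G e) (d e)) (hX : ∀ e, XHomog (G e) (k e))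
    (σ : K →+* ℂ)
    (hns : ∀ (V : Fin r → Fin 3 → ℂ), (∀ i, FD.OnE (a i) (b i) (V i)) →
      ∃ e, spc0 (toC σ) (G e) V ≠ 0)
    (L : Type) [Field L] [NumberField L] [Algebra K L] (N : ℕ)
    (ω : Module.Basis (Fin N) ℤ (𝓞 L)) :
    ∃ τ : ℝ, 0 < τ ∧ τ < 1 ∧ ∃ H₀ : ℕ, 3 ≤ H₀ ∧ ∀ H : ℕ, H₀ ≤ H →
      (∃ FF : Finset (MvPolynomial (Fin (n + 1)) L),
        (FF.card : ℝ) ≤ Real.exp ((Real.log H) ^ τ) ∧
        (∀ f ∈ FF, f ≠ 0 ∧ f.IsHomogeneous k') ∧
        ∀ c ∈ SolL K ω a b G H, ∃ f ∈ FF, eval (fun i => ((vec ω c i : 𝓞 L) : L)) f = 0) ∧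
      (((SolL K ω a b G H).ncard : ℕ) : ℝ) ≤ Real.exp ((Real.log H) ^ τ) *
        ((k' : ℝ) * (2 * (H : ℝ) + 1) ^ (N * n)) := by
  classical
  obtain ⟨σ', hσ'⟩ := exists_ext (L := L) σ
  set ψ : 𝓞 K →+* 𝓞 L := algebraMap (𝓞 K) (𝓞 L) with hψ
  have h1 : (toC σ').comp ψ = toC σ := by
    ext x
    have h2 : ((algebraMap (𝓞 K) (𝓞 L) x : 𝓞 L) : L) = algebraMap K L (x : K) := rfl
    show σ' ((algebraMap (𝓞 K) (𝓞 L) x : 𝓞 L) : L) = σ (x : K)
    rw [h2, ← hσ']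
    rfl
  have h2 : (algebraMap (𝓞 L) L).comp ψ = toL K L := by
    ext x
    rfl
  let G' : Fin q → Pol (𝓞 L) r 0 (n + 1) := fun e =>
    X (Sum.inr (Sum.inr 0)) ^ (k' - k e) * MvPolynomial.map ψ (G e)
  obtain ⟨τ, h0, h1', H₀, h3, h⟩ := hs L N ω r 0 a b hab ⊥ ⟨∅, by simp⟩ 1
    (fun _ => n + 1) q (fun _ e => G' e) (fun _ e i => 0 + d e i)
    (fun _ => Finset.finsuppAntidiag Finset.univ k')
    (fun _ e => (MHomog.varpow 0 _).mul ((hG e).map ψ))
    (fun _ e => by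
      have h4 := (XHomog.varpow (O := 𝓞 L) (r := r) (s := 0) (0 : Fin (n + 1)) (k' - k e)).mul
        ((hX e).map ψ)
      rw [Nat.sub_add_cancel (hk e)] at h4
      exact h4.xsupp) σ' (by
      intro V u hV _ _
      obtain ⟨e, he⟩ := hns V hV
      refine ⟨e, ?_⟩
      show spc (toC σ') (X (Sum.inr (Sum.inr 0)) ^ (k' - k e) * MvPolynomial.map ψ (G e)) V u ≠ 0
      rw [spc_mul, spc_varpow, spc_mapc, h1, spc_torus0]
      exact mul_ne_zero (pow_ne_zero _ (X_ne_zero _)) he)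
  refine ⟨τ, h0, h1', H₀, h3, fun H hH => ?_⟩
  obtain ⟨FF, hFF, hF1, hF2⟩ := h H hH
  have hsol : ∀ c ∈ SolL K ω a b G H, (fun _ => c) ∈
      Sol (B := 1) (n := fun _ => n + 1) ω a b ⊥ (fun _ e => G' e) H := by
    rintro c ⟨h4, V, hV, hG0⟩
    refine ⟨fun _ => h4, V, fun _ => 1, hV, fun _ => Subgroup.one_mem _, fun _ e => ?_⟩
    show vl (algebraMap (𝓞 L) L) (X (Sum.inr (Sum.inr 0)) ^ (k' - k e) *
      MvPolynomial.map ψ (G e)) V _ _ = 0
    have h5 := hG0 e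
    rw [vl_mul, vl_mapc, h2, vl_torus0 (toL K L)]
    exact mul_eq_zero_of_right _ h5
  have hF : ∀ f ∈ FF.image (fun f => f 0), f ≠ 0 ∧ f.IsHomogeneous k' := by
    intro f hf
    rw [Finset.mem_image] at hf
    obtain ⟨g, hg, rfl⟩ := hf
    exact ⟨(hF1 g hg 0).1, isHomog_of_supp (hF1 g hg 0).2⟩
  have hcov : ∀ c ∈ SolL K ω a b G H, ∃ f ∈ FF.image (fun f => f 0),
      eval (fun i => ((vec ω c i : 𝓞 L) : L)) f = 0 := by
    intro c hc
    obtain ⟨f, hf, h4⟩ := hF2 _ (hsol c hc)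
    exact ⟨f 0, Finset.mem_image_of_mem _ hf, h4 0⟩
  have hcard : ((FF.image (fun f => f 0)).card : ℝ) ≤ Real.exp ((Real.log H) ^ τ) := by
    refine le_trans ?_ hFF
    exact_mod_cast Finset.card_image_le
  refine ⟨⟨FF.image (fun f => f 0), hcard, hF, hcov⟩, ?_⟩
  have h4 := count_cover (B := 1) (n := fun _ => n) (k := fun _ => k') ω H
    ((fun c => fun _ => c) '' (SolL K ω a b G H)) (by
      rintro c ⟨c', hc', rfl⟩ _
      exact hc'.1) ((FF.image (fun f => f 0)).image (fun f => fun _ => f)) (by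
      intro f hf j
      rw [Finset.mem_image] at hf
      obtain ⟨g, hg, rfl⟩ := hf
      exact hF g hg) (by
      rintro c ⟨c', hc', rfl⟩
      obtain ⟨f, hf, h5⟩ := hcov c' hc'
      exact ⟨fun _ => f, Finset.mem_image_of_mem _ hf, fun _ => h5⟩)
  rw [Set.ncard_image_of_injective _ (fun c c' h => congrFun h 0)] at h4
  have h5 : ((((FF.image (fun f => f 0)).image
      (fun f => (fun _ => f : Fin 1 → MvPolynomial (Fin (n + 1)) L))).card : ℕ) : ℝ) ≤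
      Real.exp ((Real.log H) ^ τ) := by
    refine le_trans ?_ hcard
    exact_mod_cast Finset.card_image_le
  rw [Fin.prod_univ_one] at h4
  have h6 : (((SolL K ω a b G H).ncard : ℕ) : ℝ) ≤ ((((FF.image (fun f => f 0)).image
      (fun f => (fun _ => f : Fin 1 → MvPolynomial (Fin (n + 1)) L))).card : ℕ) : ℝ) *
      ((k' : ℝ) * (2 * (H : ℝ) + 1) ^ (N * n)) := by exact_mod_cast h4
  exact h6.trans (mul_le_mul_of_nonneg_right h5 (by positivity))

end Pool.Agent.W659.SA
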