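import Pool.Agent.W659.SA.Primes

/-! Project SA (helper659): families with finite fibres. -/

set_option autoImplicit false

namespace Pool.Agent.W659.SA

open MvPolynomial NumberField Pool.Agent.H901R3.MS WeierstrassCurve

/-- if among any `D + 1` elements of `P` two are equal, `P` has at most `D` elements -/
theorem pick {α : Type} (P : Set α) (D : ℕ)
    (h : ∀ f : Fin (D + 1) → α, (∀ l, f l ∈ P) → ∃ l l', l ≠ l' ∧ f l = f l') :
    ∃ Z : Finset α, Z.card ≤ D ∧ P ⊆ Z := by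
  classical
  by_contra hcon
  push Not at hcon
  have key : ∀ m : ℕ, m ≤ D + 1 → ∃ t : Finset α, (t : Set α) ⊆ P ∧ t.card = m := by
    intro m
    induction m with
    | zero => exact fun _ => ⟨∅, by simp, rfl⟩
    | succ m ih =>
      intro hm
      obtain ⟨t, ht, htc⟩ := ih (by omega)
      obtain ⟨x, hx, hxt⟩ := Set.not_subset.1 (hcon t (by omega))
      refine ⟨insert x t, ?_, ?_⟩
      · rw [Finset.coe_insert]
        exact Set.insert_subset hx ht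
      · rw [Finset.card_insert_of_notMem hxt, htc]
  obtain ⟨t, ht, htc⟩ := key (D + 1) le_rfl
  let e : Fin (D + 1) ≃ t := (Fin.castOrderIso htc.symm).toEquiv.trans t.equivFin.symm
  obtain ⟨l, l', hl, hll⟩ := h (fun l => (e l : α)) (fun l => ht (e l).2)
  exact hl (e.injective (Subtype.ext hll))

/-- the points over which there is a point of the family -/
def SolF {K : Type} [Field K] [NumberField K] {N : ℕ} (ω : Module.Basis (Fin N) ℤ (𝓞 K))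
    {r s n q : ℕ} (a b : Fin r → ℤ) (Γ : Subgroup Kˣ) (G : Fin q → Pol (𝓞 K) r s n) (H : ℕ) :
    Set (Fin n × Fin N → ℤ) :=
  {c | (∀ i, |c i| ≤ H) ∧ (∃ i, vec ω c i ≠ 0) ∧ ∃ (V : Fin r → Fin 3 → K) (u : Fin s → Kˣ),
    (∀ i, FD.OnE (a i) (b i) (V i)) ∧ (∀ l, u l ∈ Γ) ∧
      ∀ e, vl (algebraMap (𝓞 K) K) (G e) V (fun l => ((u l : Kˣ) : K))
        (fun i => ((vec ω c i : 𝓞 K) : K)) = 0}

/-- the vectors are multiples of elements of `Z` -/
def CoverF {K : Type} [Field K] [NumberField K] {N : ℕ} (ω : Module.Basis (Fin N) ℤ (𝓞 K))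
    {n : ℕ} (S : Set (Fin n × Fin N → ℤ)) (Z : Set (Fin n → K)) : Prop :=
  ∀ c ∈ S, ∃ z ∈ Z, ∃ y : K, (fun i => ((vec ω c i : 𝓞 K) : K)) = y • z

def SieveHF : Prop := ∀ (K : Type) [Field K] [NumberField K] (N : ℕ)
  (ω : Module.Basis (Fin N) ℤ (𝓞 K)) (r s : ℕ) (a b : Fin r → ℤ),
  (∀ i, a i * b i = 0 ∧ (a i ≠ 0 ∨ b i ≠ 0)) → ∀ Γ : Subgroup Kˣ, Γ.FG →
  ∀ (n q : ℕ) (G : Fin q → Pol (𝓞 K) r s n) (d : Fin q → Fin r → ℕ),
  (∀ e, MHomog (G e) (d e)) → ∀ (σ : K →+* ℂ) (D : ℕ),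
  (∀ (V : Fin r → Fin 3 → ℂ) (u : Fin s → ℂ), (∀ i, FD.OnE (a i) (b i) (V i)) → (∀ l, u l ≠ 0) →
    AtMost (toC σ) G V u D) →
  ∃ p₀ R C₀ : ℕ, ∀ (T : Finset ℕ) (L : ℕ), GoodT K p₀ T L → ∀ H : ℕ,
    (C₀ * (H + 1)) ^ C₀ < ∏ p ∈ T, p →
    ∃ Z : Finset (Fin n → K), Z.card ≤ D * L ^ R ∧ CoverF ω (SolF ω a b Γ G H) Z

theorem sieveHF (hCL : ClassesS) (hDET : S_DETF) (hTRF : S_TRF) : SieveHF := by
  classical
  intro K _ _ N ω r s a b hab Γ hΓ n q G d hG σ D hns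
  obtain ⟨p₀, R, hcl⟩ := hCL K r s a b hab Γ hΓ
  obtain ⟨p₁, hp₁⟩ := hTRF K r s n a b (Fin q) G σ D hns
  obtain ⟨C, hC1, hC⟩ := hDET K N ω n D
  refine ⟨p₀ + p₁, R, C, ?_⟩
  intro T L hT H hH
  obtain ⟨hL, hT⟩ := hT
  obtain ⟨Q, _, hQ, cls, hcls⟩ := hcl L hL
  -- the points of a class
  let P : Q → Set (Projectivization K (Fin n → K)) := fun x => {y | ∃ c : Fin n × Fin N → ℤ, (∀ i, |c i| ≤ H) ∧
    ∃ h : (fun i => ((vec ω c i : 𝓞 K) : K)) ≠ 0, y = Projectivization.mk K _ h ∧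
      ∃ (V : Fin r → Fin 3 → K) (u : Fin s → Kˣ), (∀ i, FD.OnE (a i) (b i) (V i)) ∧
        (∀ l, u l ∈ Γ) ∧ cls V u = x ∧
        ∀ e, vl (algebraMap (𝓞 K) K) (G e) V (fun l => ((u l : Kˣ) : K))
          (fun i => ((vec ω c i : 𝓞 K) : K)) = 0}
  have key : ∀ x : Q, ∃ Z : Finset (Projectivization K (Fin n → K)), Z.card ≤ D ∧ P x ⊆ Z := by
    intro x
    apply pick
    intro f hf
    choose c hc hne hmk V u hV hu hx hsol using hf
    have h1 : ∀ l, ∃ i, vec ω (c l) i ≠ 0 := by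
      intro l
      obtain ⟨i, hi⟩ := Function.ne_iff.1 (hne l)
      refine ⟨i, fun h => hi ?_⟩
      simp only [h, Pi.zero_apply]
      simp
    obtain ⟨l, l', hll, z, hz⟩ := hC H T (fun p hp => (hT p hp).1) hH c hc h1 (by
      intro p hp
      obtain ⟨hpp, hp0, h12, ⟨k, _, _, hcard, φ, hφ⟩, hL1, hL2⟩ := hT p hp
      have : CharP k p := charP_of_card hpp hcard
      obtain ⟨V', u', hVu⟩ := hcls p hpp (by omega) h12 hL1 hL2 k hcard φ hφ
      have h3 := (hVu (V 0) (u 0) (hV 0) (hu 0)).1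
      rw [hx 0] at h3
      refine ⟨k, inferInstance, inferInstance, φ, ?_⟩
      by_cases h0 : ∃ l, ∀ i, φ (vec ω (c l) i) = 0
      · exact Or.inl h0
      right
      push Not at h0
      have h4 := hp₁ p hpp (by omega) k φ (V' x) (u' x) h3.1 h3.2
        (fun l i => φ (vec ω (c l) i)) (fun l h => by
          obtain ⟨i, hi⟩ := h0 l
          exact hi (congrFun h i)) (fun l e => by
          obtain ⟨_, v, z, hv, hz, hval⟩ := hVu (V l) (u l) (hV l) (hu l)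
          have h5 := (hval n (G e) (d e) (hG e) (vec ω (c l))).2
          rw [hsol l e, mul_zero, Place.r_zero, hx l] at h5
          exact h5.symm)
      obtain ⟨l, l', hll, z, hz⟩ := h4
      exact ⟨l, l', hll, z, fun i => congrFun hz i⟩)
    refine ⟨l, l', hll, ?_⟩
    rw [hmk l, hmk l', Projectivization.mk_eq_mk_iff']
    refine ⟨z, ?_⟩
    funext i
    exact (hz i).symm
  choose Z hZ1 hZ2 using key
  refine ⟨(Finset.univ : Finset Q).biUnion fun x => (Z x).image Projectivization.rep, ?_, ?_⟩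
  · refine Finset.card_biUnion_le.trans ?_
    calc ∑ x : Q, ((Z x).image Projectivization.rep).card ≤ ∑ _x : Q, D :=
          Finset.sum_le_sum fun x _ => Finset.card_image_le.trans (hZ1 x)
      _ = Fintype.card Q * D := by rw [Finset.sum_const, Finset.card_univ, smul_eq_mul]
      _ ≤ L ^ R * D := Nat.mul_le_mul_right _ hQ
      _ = D * L ^ R := mul_comm _ _
  · rintro c ⟨hc1, ⟨i₀, hi₀⟩, V, u, hV, hu, hc⟩
    have hne : (fun i => ((vec ω c i : 𝓞 K) : K)) ≠ 0 := by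
      intro h
      have h1 := congrFun h i₀
      simp only [Pi.zero_apply] at h1
      exact hi₀ (by exact_mod_cast h1)
    have h1 : Projectivization.mk K _ hne ∈ P (cls V u) :=
      ⟨c, hc1, hne, rfl, V, u, hV, hu, rfl, hc⟩
    have h2 := hZ2 _ h1
    refine ⟨(Projectivization.mk K _ hne).rep, ?_, ?_⟩
    · rw [Finset.mem_coe, Finset.mem_biUnion]
      exact ⟨cls V u, Finset.mem_univ _, Finset.mem_image_of_mem _ h2⟩
    · obtain ⟨y, hy⟩ := Projectivization.exists_smul_eq_mk_rep K _ hne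
      refine ⟨((y⁻¹ : Kˣ) : K), ?_⟩
      rw [← hy]
      rw [Units.smul_def, smul_smul, Units.inv_mul, one_smul]

/-- the theorem on families with finite fibres -/
def MainHF : Prop := ∀ (K : Type) [Field K] [NumberField K] (N : ℕ)
  (ω : Module.Basis (Fin N) ℤ (𝓞 K)) (r s : ℕ) (a b : Fin r → ℤ),
  (∀ i, a i * b i = 0 ∧ (a i ≠ 0 ∨ b i ≠ 0)) → ∀ Γ : Subgroup Kˣ, Γ.FG →
  ∀ (n q : ℕ) (G : Fin q → Pol (𝓞 K) r s n) (d : Fin q → Fin r → ℕ),
  (∀ e, MHomog (G e) (d e)) → ∀ (σ : K →+* ℂ) (D : ℕ),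
  (∀ (V : Fin r → Fin 3 → ℂ) (u : Fin s → ℂ), (∀ i, FD.OnE (a i) (b i) (V i)) → (∀ l, u l ≠ 0) →
    AtMost (toC σ) G V u D) →
  ∃ τ : ℝ, 0 < τ ∧ τ < 1 ∧ ∃ H₀ : ℕ, 3 ≤ H₀ ∧ ∀ H : ℕ, H₀ ≤ H →
    ∃ Z : Finset (Fin n → K), (Z.card : ℝ) ≤ D * Real.exp ((Real.log H) ^ τ) ∧
      CoverF ω (SolF ω a b Γ G H) Z

theorem mainHF (hS : SieveHF) (hP : PrimesS) : MainHF := by
  intro K _ _ N ω r s a b hab Γ hΓ n q G d hG σ D hns
  obtain ⟨p₀, R, C₀, h⟩ := hS K N ω r s a b hab Γ hΓ n q G d hG σ D hns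
  obtain ⟨τ, hτ0, hτ1, H₀, hH3, hH₀⟩ := hP K p₀ R C₀
  refine ⟨τ, hτ0, hτ1, H₀, hH3, fun H hH => ?_⟩
  obtain ⟨T, L, hT, hC, hL⟩ := hH₀ H hH
  obtain ⟨Z, hZ, hcov⟩ := h T L hT H hC
  refine ⟨Z, ?_, hcov⟩
  have h1 : (Z.card : ℝ) ≤ D * (L : ℝ) ^ R := by exact_mod_cast hZ
  exact h1.trans (mul_le_mul_of_nonneg_left hL (by positivity))

end Pool.Agent.W659.SA
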