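import Pool.Agent.W659.FK.Final
import Pool.Agent.W578.SA.TRK
import Pool.Agent.W347.SA.ULTS
import Pool.Agent.W440.SA.TRZ
import Pool.Agent.W924.SA.TRF
import Pool.Agent.W305.SA.DET
import Pool.Agent.W305.SA.DETF
import Pool.Agent.W605.SA.UR
import Pool.Agent.W440.SA.ROM
import Pool.Agent.W52.SA.SP2
import Pool.Agent.W52.SA.PRL
import Pool.Agent.W52.SA.CH
import Pool.Agent.W32.SA.ASH
import Pool.Agent.W417.SA.SZ
import Pool.Agent.W659.SA.HF
import Pool.Agent.W659.SA.DC

/-! Project SA (helper659): everything put together. -/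

set_option autoImplicit false

namespace Pool.Agent.W659.SA

open Pool.Agent.H901R3.MS

theorem sp2 : S_SP2 :=
  Pool.Agent.W52.SA.SP2.main t_RO Pool.Agent.W440.SA.ROM.main (t_DK t_HFIN t_H2 t_H4 t_PITK)

theorem t_classes : ClassesS :=
  classesS Pool.Agent.W605.FK.main Pool.Agent.W496.FK.PLQ.main Pool.Agent.W605.SA.UR.main
    (t_R6 t_R1 t_R2 t_R3 t_R4 t_R5) (t_R7 t_R1) t_PTSK t_M1K t_M2 Pool.Agent.H35R6.DCCNT.cnt

theorem t_primes : PrimesS :=
  primesS _root_.W580.FK.main sp2 t_LY Pool.Agent.W52.SA.PRL.main Pool.Agent.W52.SA.CH.main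
    Pool.Agent.W32.SA.ASH.main

/-- families of subvarieties -/
theorem hs : MainHS :=
  mainHS (sieveHS t_classes Pool.Agent.W305.SA.DET.main
    (Pool.Agent.W440.SA.TRZ.main Pool.Agent.W578.SA.TRK.main)) t_primes

/-- families with finite fibres -/
theorem hf : MainHF :=
  mainHF (sieveHF t_classes Pool.Agent.W305.SA.DETF.main
    (Pool.Agent.W924.SA.TRF.main Pool.Agent.W578.SA.TRK.main)) t_primes

/-- double covers -/
theorem dc : MainDC :=
  mainDC (sieveDC t_classes Pool.Agent.W462.FK.main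
    (Pool.Agent.W347.SA.ULTS.main Pool.Agent.W578.SA.TRK.main) Pool.Agent.W346.FK.main t_BOX)
    _root_.W580.FK.main sp2 t_LY t_ASYK

end Pool.Agent.W659.SA
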