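import Pool.Agent.W659.SA.Defs
import Pool.Agent.W659.FK.GeoK

/-! Project SA (helper659): values of polynomials, reduction at a place, classes. -/

set_option autoImplicit false

namespace Pool.Agent.W659.SA

open MvPolynomial NumberField Pool.Agent.H901R3.MS WeierstrassCurve

theorem vl_map {O A B : Type} [CommRing O] [CommRing A] [CommRing B] (φ : O →+* A) (ψ : A →+* B)
    {r s n : ℕ} (F : Pol O r s n) (V : Fin r → Fin 3 → A) (u : Fin s → A) (t : Fin n → A) :
    ψ (vl φ F V u t) = vl (ψ.comp φ) F (fun i j => ψ (V i j)) (fun l => ψ (u l))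
      (fun i => ψ (t i)) := by
  unfold vl
  rw [hom_eval₂]
  congr 1
  funext x
  rcases x with ij | l | i <;> rfl

theorem vl_expand {O A : Type} [CommRing O] [CommRing A] (φ : O →+* A) {r s n : ℕ}
    (F : Pol O r s n) (V : Fin r → Fin 3 → A) (u : Fin s → A) (t : Fin n → A) :
    vl φ F V u t = ∑ m ∈ F.support, φ (coeff m F) * ((∏ i, ∏ j, V i j ^ m (Sum.inl (i, j))) *
      ((∏ l, u l ^ m (Sum.inr (Sum.inl l))) * ∏ k, t k ^ m (Sum.inr (Sum.inr k)))) := by
  unfold vl
  rw [eval₂_eq']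
  refine Finset.sum_congr rfl fun m _ => ?_
  rw [Fintype.prod_sum_type, Fintype.prod_prod_type, Fintype.prod_sum_type]
  simp

theorem vl_scale {O A : Type} [CommRing O] [CommRing A] (φ : O →+* A) {r s n : ℕ}
    (F : Pol O r s n) (d : Fin r → ℕ) (hF : MHomog F d) (V : Fin r → Fin 3 → A) (u : Fin s → A)
    (t : Fin n → A) (c : Fin r → A) :
    vl φ F (fun i j => c i * V i j) u t = (∏ i, c i ^ d i) * vl φ F V u t := by
  rw [vl_expand, vl_expand, Finset.mul_sum]
  refine Finset.sum_congr rfl fun m hm => ?_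
  have h1 : ∏ i, ∏ j, (c i * V i j) ^ m (Sum.inl (i, j)) =
      (∏ i, c i ^ d i) * ∏ i, ∏ j, V i j ^ m (Sum.inl (i, j)) := by
    rw [← Finset.prod_mul_distrib]
    refine Finset.prod_congr rfl fun i _ => ?_
    rw [← hF m hm i, ← Finset.prod_pow_eq_pow_sum, ← Finset.prod_mul_distrib]
    refine Finset.prod_congr rfl fun j _ => ?_
    rw [mul_pow]
  rw [h1]
  ring

theorem vl_eq {O A : Type} [CommRing O] [CommRing A] (φ : O →+* A) {r s n : ℕ}
    (F : Pol O r s n) (V : Fin r → Fin 3 → A) (u : Fin s → A) (t : Fin n → A) :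
    vl φ F V u t = eval t (spc φ F V u) := by
  unfold spc vl
  rw [hom_eval₂]
  have h1 : (eval t : MvPolynomial (Fin n) A →+* A).comp (C.comp φ) = φ := by
    ext x
    simp
  rw [h1]
  congr 1
  funext x
  rcases x with ij | l | i <;> simp

theorem spc_expand {O A : Type} [CommRing O] [CommRing A] (φ : O →+* A) {r s n : ℕ}
    (F : Pol O r s n) (V : Fin r → Fin 3 → A) (u : Fin s → A) :
    spc φ F V u = ∑ m ∈ F.support, monomial
      (Finsupp.equivFunOnFinite.symm fun i : Fin n => m (Sum.inr (Sum.inr i)))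
      (φ (coeff m F) * ((∏ i, ∏ j, V i j ^ m (Sum.inl (i, j))) *
        ∏ l, u l ^ m (Sum.inr (Sum.inl l)))) := by
  have h := vl_expand (C.comp φ) F (fun i j => (C (V i j) : MvPolynomial (Fin n) A))
    (fun l => C (u l)) X
  have h2 : vl (C.comp φ) F (fun i j => (C (V i j) : MvPolynomial (Fin n) A))
    (fun l => C (u l)) X = spc φ F V u := rfl
  rw [← h2, h]
  refine Finset.sum_congr rfl fun m _ => ?_
  rw [monomial_eq, Finsupp.prod_fintype _ _ (fun i => by simp)]
  simp only [RingHom.comp_apply, C_mul, map_prod, map_pow, Finsupp.equivFunOnFinite_symm_apply_apply]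
  ring

theorem spc_support {O A : Type} [CommRing O] [CommRing A] (φ : O →+* A) {r s n : ℕ}
    (F : Pol O r s n) (Λ : Finset (Fin n →₀ ℕ)) (hF : XSupp F Λ) (V : Fin r → Fin 3 → A)
    (u : Fin s → A) : (spc φ F V u).support ⊆ Λ := by
  classical
  rw [spc_expand]
  refine (support_sum).trans ?_
  intro e he
  rw [Finset.mem_biUnion] at he
  obtain ⟨m, hm, he⟩ := he
  have h1 := support_monomial_subset he
  rw [Finset.mem_singleton] at h1
  obtain ⟨e', he', h2⟩ := hF m hm
  have h3 : e = e' := by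
    rw [h1]
    ext i
    simp [h2 i]
  rw [h3]
  exact he'

theorem spc_degree {O A : Type} [CommRing O] [CommRing A] (φ : O →+* A) {r s n : ℕ}
    (F : Pol O r s n) (V : Fin r → Fin 3 → A) (u : Fin s → A) :
    (spc φ F V u).totalDegree ≤ F.totalDegree := by
  classical
  rw [spc_expand]
  refine (totalDegree_finsetSum _ _).trans ?_
  refine Finset.sup_le fun m hm => ?_
  refine (totalDegree_monomial_le _ _).trans ?_
  refine le_trans ?_ (le_totalDegree hm)
  rw [Finsupp.sum_fintype _ _ (fun _ => rfl), Finsupp.sum_fintype _ _ (fun _ => rfl),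
    Fintype.sum_sum_type, Fintype.sum_sum_type]
  simp only [Finsupp.equivFunOnFinite_symm_apply_apply, id]
  omega

/-- reduction of the value of a polynomial at a place -/
theorem loc_val {K k : Type} [Field K] [Field k] (v : Place K k) (φ : 𝓞 K →+* k)
    (hv : ∀ x : 𝓞 K, (x : K) ∈ v.A ∧ v.r (x : K) = φ x) {r s n : ℕ} (a b : Fin r → ℤ)
    (red : ∀ i, Pt (a i : K) (b i : K) → Pt (a i : k) (b i : k)) (P : ∀ i, Pt (a i : K) (b i : K))
    (c : Fin r → K) (hc : ∀ i j, c i * rep (P i) j ∈ v.A ∧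
      v.r (c i * rep (P i) j) = rep (red i (P i)) j)
    (F : Pol (𝓞 K) r s n) (d : Fin r → ℕ) (hF : MHomog F d) (u : Fin s → K) (hu : ∀ l, u l ∈ v.A)
    (t : Fin n → 𝓞 K) :
    (∏ i, c i ^ d i) * vl (algebraMap (𝓞 K) K) F (fun i => rep (P i)) u (fun i => (t i : K)) ∈ v.A ∧
    v.r ((∏ i, c i ^ d i) *
      vl (algebraMap (𝓞 K) K) F (fun i => rep (P i)) u (fun i => (t i : K))) =
      vl φ F (fun i => rep (red i (P i))) (fun l => v.r (u l)) (fun i => φ (t i)) := by
  let ψ : 𝓞 K →+* v.A :=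
    { toFun := fun x => ⟨(x : K), (hv x).1⟩
      map_one' := by ext; simp
      map_mul' := fun x y => by ext; simp
      map_zero' := by ext; simp
      map_add' := fun x y => by ext; simp }
  have hψ1 : v.A.subtype.comp ψ = algebraMap (𝓞 K) K := by
    ext x
    rfl
  have hψ2 : v.ρ.comp ψ = φ := by
    ext x
    have h1 := (hv x).2
    rw [v.r_of (hv x).1] at h1
    exact h1
  set V' : Fin r → Fin 3 → v.A := fun i j => ⟨c i * rep (P i) j, (hc i j).1⟩ with hV'
  set u' : Fin s → v.A := fun l => ⟨u l, hu l⟩ with hu'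
  set x : v.A := vl ψ F V' u' (fun i => ψ (t i)) with hx
  have hxK : (x : K) = (∏ i, c i ^ d i) *
      vl (algebraMap (𝓞 K) K) F (fun i => rep (P i)) u (fun i => (t i : K)) := by
    have h1 := vl_map ψ v.A.subtype F V' u' (fun i => ψ (t i))
    have h2 : v.A.subtype x = (x : K) := rfl
    rw [← h2, hx, h1, hψ1, ← vl_scale _ F d hF]
    rfl
  have hval : v.ρ x =
      vl φ F (fun i => rep (red i (P i))) (fun l => v.r (u l)) (fun i => φ (t i)) := by
    rw [hx, vl_map, hψ2]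
    congr 1
    · funext i j
      have h3 := (hc i j).2
      rw [v.r_of (hc i j).1] at h3
      exact h3
    · funext l
      exact (v.r_of (hu l)).symm
    · funext i
      exact congrArg (fun f : 𝓞 K →+* k => f (t i)) hψ2
  rw [← hxK]
  exact ⟨x.2, by rw [v.r_of x.2]; exact hval⟩

theorem std_pt (hPTS : PTSK) {K : Type} [Field K] {r s n : ℕ} (a b : Fin r → ℤ)
    (hdisc : ∀ i, Disc (a i : K) (b i : K)) (V : Fin r → Fin 3 → K)
    (hV : ∀ i, FD.OnE (a i) (b i) (V i)) :
    ∃ (P : ∀ i, Pt (a i : K) (b i : K)) (c : Fin r → K), (∀ i, c i ≠ 0) ∧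
      ∀ (O : Type) [CommRing O] (φ : O →+* K) (F : Pol O r s n) (d : Fin r → ℕ), MHomog F d →
        ∀ (u : Fin s → K) (t : Fin n → K),
          vl φ F V u t = (∏ i, c i ^ d i) * vl φ F (fun i => rep (P i)) u t := by
  have h1 : ∀ i, ∃ (P : Pt (a i : K) (b i : K)) (c : K), c ≠ 0 ∧ ∀ j, V i j = c * rep P j :=
    fun i => hPTS K (a i) (b i) (V i) (hdisc i) (hV i)
  choose P c hc0 hc1 using h1
  refine ⟨P, c, hc0, ?_⟩
  intro O _ φ F d hF u t
  have h2 : V = fun i j => c i * rep (P i) j := by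
    funext i j
    exact hc1 i j
  rw [h2, vl_scale _ F d hF]

/-- classes in a finitely generated subgroup of `Kˣ` -/
theorem classes_units (hM2 : M2) {K : Type} [Field K] (Γ : Subgroup Kˣ) (hΓ : Γ.FG) :
    ∃ R : ℕ, ∀ L : ℕ, 1 ≤ L → ∃ A : Finset Kˣ, A.card ≤ L ^ R ∧ (∀ κ ∈ A, κ ∈ Γ) ∧
      ∀ g ∈ Γ, ∃ κ ∈ A, ∃ δ ∈ Γ, g = κ * δ ^ L := by
  classical
  have : Group.FG Γ := (Group.fg_iff_subgroup_fg Γ).2 hΓ
  have h1 : AddGroup.FG (Additive Γ) := inferInstance
  obtain ⟨R, hR⟩ := hM2 (Additive Γ) h1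
  refine ⟨R, fun L hL => ?_⟩
  obtain ⟨A, hA, hA2⟩ := hR L hL
  refine ⟨A.image fun g => ((Additive.toMul g : Γ) : Kˣ), (Finset.card_image_le).trans hA, ?_, ?_⟩
  · intro κ hκ
    rw [Finset.mem_image] at hκ
    obtain ⟨g, _, rfl⟩ := hκ
    exact (Additive.toMul g).2
  · intro g hg
    obtain ⟨κ, hκ, δ, h⟩ := hA2 (Additive.ofMul ⟨g, hg⟩)
    refine ⟨((Additive.toMul κ : Γ) : Kˣ), Finset.mem_image_of_mem _ hκ,
      ((Additive.toMul δ : Γ) : Kˣ), (Additive.toMul δ).2, ?_⟩
    have h2 : (⟨g, hg⟩ : Γ) = (Additive.toMul κ : Γ) * (Additive.toMul δ : Γ) ^ L := by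
      have h3 := congrArg Additive.toMul h
      rw [toMul_ofMul, toMul_add, toMul_nsmul] at h3
      exact h3
    have h3 := congrArg (fun z : Γ => (z : Kˣ)) h2
    simpa using h3

end Pool.Agent.W659.SA
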