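import Pool.Agent.W659.SA.Geo1

/-! Project SA (helper659): the local data at the places above `p`, and the classes. -/

set_option autoImplicit false

namespace Pool.Agent.W659.SA

open MvPolynomial NumberField Pool.Agent.H901R3.MS WeierstrassCurve

/-- the set of the points `(V, u)` of the semiabelian variety -/
def OnG {k : Type} [Field k] {r s : ℕ} (a b : Fin r → ℤ) (V : Fin r → Fin 3 → k) (u : Fin s → k) :
    Prop := (∀ i, FD.OnE (a i) (b i) (V i)) ∧ ∀ l, u l ≠ 0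

/-- the structure theorem: the `K`-points of `E_1 × ⋯ × E_r × G_m^s` (the torus coordinates in `Γ`)
fall in at most `L ^ R` classes; for good `p` all the points of a class have the same reduction at a
place above `p` -/
def ClassesS : Prop := ∀ (K : Type) [Field K] [NumberField K] (r s : ℕ) (a b : Fin r → ℤ),
  (∀ i, a i * b i = 0 ∧ (a i ≠ 0 ∨ b i ≠ 0)) → ∀ Γ : Subgroup Kˣ, Γ.FG →
  ∃ p₀ R : ℕ, ∀ L : ℕ, 1 ≤ L → ∃ (Q : Type) (_ : Fintype Q), Fintype.card Q ≤ L ^ R ∧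
    ∃ cls : (Fin r → Fin 3 → K) → (Fin s → Kˣ) → Q,
    ∀ p : ℕ, p.Prime → p₀ ≤ p → 12 ∣ p + 1 → 2 * (p + 1) ∣ L → p ^ 2 - 1 ∣ L →
    ∀ (k : Type) [Field k] [Fintype k], (Fintype.card k = p ∨ Fintype.card k = p ^ 2) →
    ∀ φ : 𝓞 K →+* k, Function.Surjective φ →
    ∃ (V' : Q → Fin r → Fin 3 → k) (u' : Q → Fin s → k),
      ∀ (V : Fin r → Fin 3 → K) (u : Fin s → Kˣ), (∀ i, FD.OnE (a i) (b i) (V i)) →
      (∀ l, u l ∈ Γ) → OnG a b (V' (cls V u)) (u' (cls V u)) ∧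
      ∃ (v : Place K k) (c : Fin r → K), (∀ x : 𝓞 K, (x : K) ∈ v.A ∧ v.r (x : K) = φ x) ∧
        (∀ i, c i ≠ 0) ∧ ∀ (n : ℕ) (F : Pol (𝓞 K) r s n) (d : Fin r → ℕ), MHomog F d →
        ∀ t : Fin n → 𝓞 K,
          (∏ i, c i ^ d i) * vl (algebraMap (𝓞 K) K) F V (fun l => ((u l : Kˣ) : K))
            (fun i => (t i : K)) ∈ v.A ∧
          v.r ((∏ i, c i ^ d i) * vl (algebraMap (𝓞 K) K) F V (fun l => ((u l : Kˣ) : K))
            (fun i => (t i : K))) = vl φ F (V' (cls V u)) (u' (cls V u)) (fun i => φ (t i))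

theorem charP_of_card {k : Type} [Field k] [Fintype k] {p : ℕ} (hpp : p.Prime)
    (hcard : Fintype.card k = p ∨ Fintype.card k = p ^ 2) : CharP k p := by
  obtain ⟨q, hq⟩ := CharP.exists k
  have hqp : q.Prime := CharP.char_is_prime k q
  obtain ⟨m, _, hm⟩ := FiniteField.card k q
  have h5 : p ∣ q ^ (m : ℕ) := by
    rw [← hm]
    rcases hcard with h | h
    · rw [h]
    · rw [h]; exact dvd_pow_self _ two_ne_zero
  have h6 : p = q := (Nat.prime_dvd_prime_iff_eq hpp hqp).1 (hpp.dvd_of_dvd_pow h5)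
  rw [h6]
  exact hq

theorem card_sub_one_dvd {k : Type} [Field k] [Fintype k] {p L : ℕ}
    (hcard : Fintype.card k = p ∨ Fintype.card k = p ^ 2) (hL : p ^ 2 - 1 ∣ L) :
    Fintype.card k - 1 ∣ L := by
  rcases hcard with h | h
  · rw [h]
    refine dvd_trans ?_ hL
    have h1 : p ^ 2 - 1 = (p + 1) * (p - 1) := by
      have := Nat.sq_sub_sq p 1
      simpa using this
    rw [h1]
    exact dvd_mul_left _ _
  · rw [h]
    exact hL

theorem classesS (hKILL : FK.S_KILL) (hPLQ : FK.S_PLQ) (hUR : S_UR) (hRed : FD.RedP)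
    (hRep : FD.RepP) (hPTS : PTSK) (hM1 : M1K) (hM2 : M2) (hCNT : Pool.Agent.H925R3.DC.CNT) :
    ClassesS := by
  classical
  intro K _ _ r s a b hab Γ hΓ
  have hdisc : ∀ i, 4 * a i ^ 3 + 27 * b i ^ 2 ≠ 0 := by
    intro i h
    obtain ⟨h1, h2⟩ := hab i
    rcases mul_eq_zero.1 h1 with h3 | h3
    · rw [h3] at h h2
      have h4 : (b i) ^ 2 = 0 := by linarith
      rcases h2 with h2 | h2
      · exact h2 rfl
      · exact h2 (pow_eq_zero_iff two_ne_zero |>.1 h4)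
    · rw [h3] at h h2
      have h4 : (a i) ^ 3 = 0 := by linarith
      rcases h2 with h2 | h2
      · exact h2 (pow_eq_zero_iff three_ne_zero |>.1 h4)
      · exact h2 rfl
  have hdK : ∀ i, Disc (a i : K) (b i : K) := fun i =>
    FD.disc_of two_ne_zero (by exact_mod_cast hdisc i)
  have h1 : ∀ i, ∃ R : ℕ, ∀ L : ℕ, 1 ≤ L → ∃ A : Finset (Pt (a i : K) (b i : K)),
      A.card ≤ L ^ R ∧ ∀ g : Pt (a i : K) (b i : K), ∃ κ ∈ A, ∃ δ : Pt (a i : K) (b i : K),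
        g = κ + L • δ := by
    intro i
    exact hM2 _ (hM1 K (a i) (b i) (hdK i))
  choose R hR using h1
  obtain ⟨R', hR'⟩ := classes_units hM2 Γ hΓ
  obtain ⟨p₁, hp₁⟩ := hUR K Γ hΓ
  refine ⟨p₁ + 5 + ∑ i, (4 * a i ^ 3 + 27 * b i ^ 2).natAbs + 1, ∑ i, R i + s * R', ?_⟩
  intro L hL
  have h2 : ∀ i, ∃ A : Finset (Pt (a i : K) (b i : K)),
      A.card ≤ L ^ (R i) ∧ ∀ g : Pt (a i : K) (b i : K), ∃ κ ∈ A, ∃ δ : Pt (a i : K) (b i : K),
        g = κ + L • δ := fun i => hR i L hL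
  choose A hAc hAr using h2
  obtain ⟨B, hBc, hBΓ, hBr⟩ := hR' L hL
  -- the class of a point
  choose κ₀ hκ₀ δ₀ hδ₀ using hAr
  have hBr' : ∀ g : Kˣ, ∃ κ : B, g ∈ Γ → ∃ δ ∈ Γ, g = κ.1 * δ ^ L := by
    intro g
    by_cases hg : g ∈ Γ
    · obtain ⟨κ, hκ, δ, hδ, h⟩ := hBr g hg
      exact ⟨⟨κ, hκ⟩, fun _ => ⟨δ, hδ, h⟩⟩
    · obtain ⟨κ, hκ, _⟩ := hBr 1 Γ.one_mem
      exact ⟨⟨κ, hκ⟩, fun h => absurd h hg⟩
  choose μ hμ using hBr'
  have hst : ∀ V : Fin r → Fin 3 → K, ∃ P : ∀ i, Pt (a i : K) (b i : K),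
      (∀ i, FD.OnE (a i) (b i) (V i)) → ∃ c : Fin r → K, (∀ i, c i ≠ 0) ∧
      ∀ (n : ℕ) (F : Pol (𝓞 K) r s n) (d : Fin r → ℕ), MHomog F d →
        ∀ (u : Fin s → K) (t : Fin n → K),
          vl (algebraMap (𝓞 K) K) F V u t =
            (∏ i, c i ^ d i) * vl (algebraMap (𝓞 K) K) F (fun i => rep (P i)) u t := by
    intro V
    by_cases hV : ∀ i, FD.OnE (a i) (b i) (V i)
    · have h1 : ∀ i, ∃ (P : Pt (a i : K) (b i : K)) (c : K), c ≠ 0 ∧ ∀ j, V i j = c * rep P j :=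
        fun i => hPTS K (a i) (b i) (V i) (hdK i) (hV i)
      choose P c hc0 hc1 using h1
      refine ⟨P, fun _ => ⟨c, hc0, ?_⟩⟩
      intro n F d hF u t
      have h2 : V = fun i j => c i * rep (P i) j := by
        funext i j
        exact hc1 i j
      rw [h2, vl_scale _ F d hF]
    · exact ⟨fun _ => 0, fun h => absurd h hV⟩
  choose PP hPP using hst
  refine ⟨(∀ i, A i) × (Fin s → B), inferInstance, ?_,
    fun V u => (fun i => ⟨κ₀ i (PP V i), hκ₀ i (PP V i)⟩, fun l => μ (u l)), ?_⟩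
  · rw [Fintype.card_prod, Fintype.card_pi, Fintype.card_fun, Fintype.card_fin, pow_add,
      ← Finset.prod_pow_eq_pow_sum]
    refine Nat.mul_le_mul ?_ ?_
    · refine Finset.prod_le_prod (fun _ _ => Nat.zero_le _) fun i _ => ?_
      rw [Fintype.card_coe]
      exact hAc i
    · rw [Fintype.card_coe, mul_comm s R', pow_mul]
      exact Nat.pow_le_pow_left hBc s
  intro p hpp hp0 h12 hL1 hL2 k _ _ hcard φ hφ
  haveI : Fact p.Prime := ⟨hpp⟩
  haveI : CharP k p := charP_of_card hpp hcard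
  have hpd : ∀ i, ¬ (p : ℤ) ∣ 4 * a i ^ 3 + 27 * b i ^ 2 := by
    intro i h
    have h5 := Nat.le_of_dvd (Int.natAbs_pos.2 (hdisc i)) (Int.natCast_dvd.1 h)
    have h6 : (4 * a i ^ 3 + 27 * b i ^ 2).natAbs ≤
        ∑ i, (4 * a i ^ 3 + 27 * b i ^ 2).natAbs :=
      Finset.single_le_sum (f := fun i => (4 * a i ^ 3 + 27 * b i ^ 2).natAbs)
        (fun _ _ => Nat.zero_le _) (Finset.mem_univ i)
    omega
  have h2k : (2 : k) ≠ 0 := by
    intro h
    have h5 : ((2 : ℕ) : k) = 0 := by exact_mod_cast h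
    rw [CharP.cast_eq_zero_iff k p] at h5
    have := Nat.le_of_dvd (by norm_num) h5
    omega
  obtain ⟨v, hv⟩ := hPLQ K k φ hφ
  have hdk : ∀ i, Disc (a i : k) (b i : k) := fun i => FD.disc_of h2k (by
    intro h
    exact hpd i ((CharP.intCast_eq_zero_iff k p _).1 h))
  have h1 : ∀ i, ∃ red : Pt (a i : K) (b i : K) →+ Pt (a i : k) (b i : k),
      IsRed v (a i) (b i) red := fun i => hRed K k v (a i) (b i) (hdk i)
  choose red hred using h1
  have hkill : ∀ i, ∀ P : Pt (a i : k) (b i : k), (2 * (p + 1)) • P = 0 := fun i P =>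
    hKILL p (a i) (b i) (by omega) (hpd i) (hCNT p (a i) (b i) hpp h12 (hab i).1) k hcard P
  have hredL : ∀ i, ∀ κ δ : Pt (a i : K) (b i : K), red i (κ + L • δ) = red i κ := by
    intro i κ δ
    obtain ⟨m, hm⟩ := hL1
    rw [map_add, map_nsmul, hm, mul_comm, mul_smul, hkill i, smul_zero, add_zero]
  have hU : ∀ g ∈ Γ, (g : K) ∈ v.A ∧ v.r (g : K) ≠ 0 := fun g hg =>
    hp₁ p hpp (by omega) k v (fun x => (hv x).1) g hg
  have hUL : ∀ κ ∈ Γ, ∀ δ ∈ Γ, v.r ((κ * δ ^ L : Kˣ) : K) = v.r (κ : K) := by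
    intro κ hκ δ hδ
    have h5 : ((κ * δ ^ L : Kˣ) : K) = (κ : K) * (δ : K) ^ L := by push_cast; rfl
    have h6 : ((δ : K) ^ L) ∈ v.A := v.A.pow_mem (hU δ hδ).1 L
    rw [h5, v.r_mul (hU κ hκ).1 h6, v.r_pow (hU δ hδ).1]
    obtain ⟨m, hm⟩ := card_sub_one_dvd hcard hL2
    rw [hm, pow_mul, FiniteField.pow_card_sub_one_eq_one _ (hU δ hδ).2, one_pow, mul_one]
  refine ⟨fun q i => rep (red i (q.1 i).1), fun q l => v.r (((q.2 l).1 : Kˣ) : K), ?_⟩
  intro V u hV hu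
  have hP : ∀ i, red i (PP V i) = red i (κ₀ i (PP V i)) := by
    intro i
    conv_lhs => rw [hδ₀ i (PP V i)]
    exact hredL i _ _
  have hu2 : ∀ l, v.r (((μ (u l)).1 : Kˣ) : K) = v.r ((u l : Kˣ) : K) := by
    intro l
    obtain ⟨δ, hδ, h⟩ := hμ (u l) (hu l)
    conv_rhs => rw [h]
    exact (hUL _ (hBΓ _ (μ (u l)).2) δ hδ).symm
  obtain ⟨c₁, hc₁, hcv⟩ := hPP V hV
  have h3 : ∀ i, ∃ z : K, z ≠ 0 ∧ ∀ j, z * rep (PP V i) j ∈ v.A ∧
      v.r (z * rep (PP V i) j) = rep (red i (PP V i)) j := fun i =>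
    hRep K k v (a i) (b i) (red i) (hred i) (PP V i)
  choose z hz0 hz1 using h3
  refine ⟨⟨fun i => FD.onE_rep _, fun l => ?_⟩, v, fun i => z i * (c₁ i)⁻¹, hv, ?_, ?_⟩
  · show v.r (((μ (u l)).1 : Kˣ) : K) ≠ 0
    rw [hu2 l]
    exact (hU _ (hu l)).2
  · intro i
    exact mul_ne_zero (hz0 i) (inv_ne_zero (hc₁ i))
  · intro n F d hF t
    have h4 := loc_val v φ hv a b (fun i => red i) (PP V) z hz1 F d hF
      (fun l => ((u l : Kˣ) : K)) (fun l => (hU _ (hu l)).1) t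
    have h5 : (∏ i, (z i * (c₁ i)⁻¹) ^ d i) * vl (algebraMap (𝓞 K) K) F V
        (fun l => ((u l : Kˣ) : K)) (fun i => (t i : K)) =
        (∏ i, z i ^ d i) * vl (algebraMap (𝓞 K) K) F (fun i => rep (PP V i))
          (fun l => ((u l : Kˣ) : K)) (fun i => (t i : K)) := by
      rw [hcv n F d hF]
      have h6 : (∏ i, c₁ i ^ d i) ≠ 0 := Finset.prod_ne_zero_iff.2 fun i _ => pow_ne_zero _ (hc₁ i)
      have h7 : ∏ i, (z i * (c₁ i)⁻¹) ^ d i = (∏ i, z i ^ d i) * (∏ i, c₁ i ^ d i)⁻¹ := by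
        rw [← Finset.prod_inv_distrib, ← Finset.prod_mul_distrib]
        exact Finset.prod_congr rfl fun i _ => by rw [mul_pow, inv_pow]
      rw [h7]
      field_simp
    rw [h5]
    refine ⟨h4.1, ?_⟩
    rw [h4.2]
    congr 1
    · funext i
      show rep (red i (PP V i)) = rep (red i (κ₀ i (PP V i)))
      rw [hP i]
    · funext l
      exact (hu2 l).symm

end Pool.Agent.W659.SA
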